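import Pool.Agent.J6H92.BC.NDLib

/-!
# The set of the nodes with one more colour is bounded
-/

set_option autoImplicit false

namespace Pool.Agent.J6H92.BC

open Pool.Agent.TH672 (Fm LogK ReplK Sw)
open Pool.Agent.TH636.BC (Fml blk inst lt col robinson TE)
open Pool.Agent.J6H49.BC

/-! ### sizes and complexity of the formulas -/

theorem sz_col (u v c : ℕ) : sz (col u v c) = u + v + 2 * c + 12 := by
  unfold col
  rw [sz_op]
  omega

theorem sz_hi (b v : ℕ) : sz (hi b v) = b + 3 * v + 11 := by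
  unfold hi
  rw [sz_op]
  omega

theorem sz_neg (φ : Fml) : sz φ.neg = sz φ + 8 := by
  unfold Fm.neg
  rw [sz_imp, sz_bot]

theorem bb_neg {c : ℕ} {φ : Fml} (h : BB c φ) : BB c φ.neg := h.imp (bb_bot c)

theorem bb_col (c u v w : ℕ) : BB c (col u v w) := bb_op _ _ _ _ _ _

theorem bb_hi (c b v : ℕ) : BB c (hi b v) := bb_op _ _ _ _ _ _

theorem bb_cols (c : ℕ) (P : List (ℕ × ℕ)) (v : ℕ) : ∀ g ∈ cols P v, BB c g := by
  intro g hg
  obtain ⟨x, _, rfl⟩ := List.mem_map.1 hg
  exact bb_col _ _ _ _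

theorem bb_neqs (c : ℕ) (D : List ℕ) (e : ℕ) : ∀ g ∈ neqs D e, BB c g := by
  intro g hg
  obtain ⟨x, _, rfl⟩ := List.mem_map.1 hg
  exact bb_neg (bb_eq _ _ _)

theorem cs_cols {P : List (ℕ × ℕ)} {v m : ℕ} (hP : ∀ x ∈ P, x.1 ≤ m ∧ x.2 ≤ m) (hv : v ≤ m) :
    cs (cols P v) ≤ P.length * (4 * m + 16) := by
  have h := cs_le (Δ := cols P v) (s := 4 * m + 12) (by
    intro g hg
    obtain ⟨x, hx, rfl⟩ := List.mem_map.1 hg
    have := hP x hx
    rw [sz_col]
    omega)
  rw [show (cols P v).length = P.length from List.length_map _] at h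
  exact h

theorem cs_neqs {D : List ℕ} {e m : ℕ} (hD : ∀ x ∈ D, x ≤ m) (he : e ≤ m) :
    cs (neqs D e) ≤ D.length * (2 * m + 18) := by
  have h := cs_le (Δ := neqs D e) (s := 2 * m + 14) (by
    intro g hg
    obtain ⟨x, hx, rfl⟩ := List.mem_map.1 hg
    have := hD x hx
    rw [sz_neg, sz_eq]
    omega)
  rw [show (neqs D e).length = D.length from List.length_map _] at h
  exact h

theorem bb_Hyp (P : List (ℕ × ℕ)) (D : List ℕ) : BB 6 (Hyp P D) := by
  have h : BB 0 (imps (cols P 17) (imps (cols P 19) (.imp (col 17 19 23) (imps (neqs D 23) .bot)))) :=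
    BB.imps (bb_cols 0 P 17) (BB.imps (bb_cols 0 P 19)
      ((bb_col 0 17 19 23).imp (BB.imps (bb_neqs 0 D 23) (bb_bot 0))))
  exact ((h.all 23).all 19).all 17

theorem bb_Kf (P : List (ℕ × ℕ)) : BB 4 (Kf P) := by
  have h : BB 0 (Fm.imp (hi 15 17) (imps (cols P 17) .bot)) :=
    (bb_hi 0 15 17).imp (BB.imps (bb_cols 0 P 17) (bb_bot 0))
  exact (bb_neg (h.all 17)).all 15

theorem sz_Hyp {P : List (ℕ × ℕ)} {D : List ℕ} {N : ℕ} (hN : 1 ≤ N) (hP : P.length ≤ N)
    (hD : D.length ≤ N) (hP' : ∀ x ∈ P, x.1 ≤ 42 * N ∧ x.2 ≤ 42 * N) (hD' : ∀ x ∈ D, x ≤ 42 * N) :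
    sz (Hyp P D) ≤ 650 * N ^ 2 := by
  have h1 := cs_cols (v := 17) hP' (by omega)
  have h2 := cs_cols (v := 19) hP' (by omega)
  have h3 := cs_neqs (e := 23) hD' (by omega)
  have h4 : P.length * (4 * (42 * N) + 16) ≤ N * (4 * (42 * N) + 16) := Nat.mul_le_mul_right _ hP
  have h5 : D.length * (2 * (42 * N) + 18) ≤ N * (2 * (42 * N) + 18) := Nat.mul_le_mul_right _ hD
  unfold Hyp
  simp only [sz_all, sz_imps, sz_imp, sz_col, sz_bot]
  nlinarith

theorem sz_Kf {P : List (ℕ × ℕ)} {N : ℕ} (hN : 1 ≤ N) (hP : P.length ≤ N)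
    (hP' : ∀ x ∈ P, x.1 ≤ 42 * N ∧ x.2 ≤ 42 * N) : sz (Kf P) ≤ 330 * N ^ 2 := by
  have h1 := cs_cols (v := 17) hP' (by omega)
  have h4 : P.length * (4 * (42 * N) + 16) ≤ N * (4 * (42 * N) + 16) := Nat.mul_le_mul_right _ hP
  unfold Kf
  simp only [sz_all, sz_imps, sz_imp, sz_hi, sz_bot, sz_neg]
  nlinarith

/-! ### variables -/

theorem free_cols {P : List (ℕ × ℕ)} {v x : ℕ} {g : Fml} (hg : g ∈ cols P v) (hx : g.Free x) :
    (∃ p ∈ P, x = p.1 ∨ x = p.2) ∨ x = v := by
  obtain ⟨p, hp, rfl⟩ := List.mem_map.1 hg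
  rcases hx with h | h | h | h
  · exact .inl ⟨p, hp, .inl h⟩
  · exact .inr h
  · exact .inl ⟨p, hp, .inr h⟩
  · exact .inl ⟨p, hp, .inr h⟩

theorem free_neqs {D : List ℕ} {e x : ℕ} {g : Fml} (hg : g ∈ neqs D e) (hx : g.Free x) :
    x ∈ D ∨ x = e := by
  obtain ⟨d, hd, rfl⟩ := List.mem_map.1 hg
  rcases hx with (h | h) | h
  · exact .inr h
  · exact .inl (h ▸ hd)
  · exact absurd h id

theorem PP_bd {k n : ℕ} (hk : k ≤ n) : ∀ x ∈ PP k, (x.1 ≤ 42 * (n + 1) ∧ x.2 ≤ 42 * (n + 1)) ∧
    40 ≤ x.1 ∧ 40 ≤ x.2 := by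
  intro x hx
  obtain ⟨i, hi, rfl⟩ := List.mem_map.1 hx
  rw [List.mem_range] at hi
  simp only [pn, qn]
  omega

theorem PJ_bd {k r j n : ℕ} (hk : k + r ≤ n) (hj : j < r) : ∀ x ∈ PJ k j,
    (x.1 ≤ 42 * (n + 1) ∧ x.2 ≤ 42 * (n + 1)) ∧ 40 ≤ x.1 ∧ 40 ≤ x.2 := by
  intro x hx
  rcases List.mem_append.1 hx with hx | hx
  · exact PP_bd (by omega) x hx
  · rw [List.mem_singleton] at hx
    subst hx
    simp only [pn, dn]
    omega

theorem DD_bd {r n : ℕ} (hr : r ≤ n) : ∀ x ∈ DD r, x ≤ 42 * (n + 1) ∧ 40 ≤ x := by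
  intro x hx
  obtain ⟨i, hi, rfl⟩ := List.mem_map.1 hx
  rw [List.mem_range] at hi
  simp only [dn]
  omega

theorem DJ_bd {r j n : ℕ} (hr : r ≤ n) : ∀ x ∈ DJ r j, x ≤ 42 * (n + 1) ∧ 40 ≤ x := by
  intro x hx
  obtain ⟨i, hi, rfl⟩ := List.mem_map.1 hx
  rw [List.mem_range] at hi
  simp only [dn]
  split_ifs <;> omega

theorem len_PP (k : ℕ) : (PP k).length = k := by simp [PP]

theorem len_PJ (k j : ℕ) : (PJ k j).length = k + 1 := by simp [PJ, len_PP]

theorem len_DD (r : ℕ) : (DD r).length = r := by simp [DD]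

theorem len_DJ (r j : ℕ) : (DJ r j).length = r - 1 := by simp [DJ]

/-- the `d_i`, `i ≠ j`, are in `DJ r j` -/
theorem mem_DJ {r i j : ℕ} (hi : i < r) (hij : i ≠ j) (hj : j < r) : dn i ∈ DJ r j := by
  unfold DJ
  rw [List.mem_map]
  by_cases h : i = r - 1
  · refine ⟨j, ?_, ?_⟩
    · rw [List.mem_range]
      omega
    · rw [if_pos rfl, h]
  · refine ⟨i, ?_, ?_⟩
    · rw [List.mem_range]
      omega
    · rw [if_neg hij]

/-- the context is small and its formulas do not contain the variables below `39` -/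
theorem G2_W {k r n s : ℕ} (hk : k + r ≤ n) (hs : 1000 * (n + 1) ^ 2 ≤ s) : ∀ g ∈ G2 k r,
    W 9 s g ∧ ∀ x, x < 39 → ¬ g.Free x := by
  have h1 : 1 ≤ n + 1 := by omega
  have hsq : n + 1 ≤ (n + 1) ^ 2 := by nlinarith
  intro g hg
  unfold G2 at hg
  simp only [List.mem_append, List.mem_cons, List.not_mem_nil, or_false] at hg
  rcases hg with (rfl | rfl | rfl) | hg
  · refine ⟨⟨(bb_Hyp _ _).mono (by omega), ?_⟩, ?_⟩
    · refine (sz_Hyp h1 (by rw [len_PP]; omega) (by rw [len_DD]; omega)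
        (fun x hx => (PP_bd (by omega) x hx).1) (fun x hx => (DD_bd (by omega) x hx).1)).trans ?_
      omega
    · intro x hx hfree
      obtain ⟨h17, h19, h23, h⟩ : x ≠ 17 ∧ x ≠ 19 ∧ x ≠ 23 ∧ (imps (cols (PP k) 17)
        (imps (cols (PP k) 19) (.imp (col 17 19 23) (imps (neqs (DD r) 23) .bot)))).Free x := hfree
      rw [free_imps, free_imps] at h
      rcases h with ⟨g, hg, hgx⟩ | ⟨g, hg, hgx⟩ | h
      · rcases free_cols hg hgx with ⟨p, hp, h⟩ | h
        · have := (PP_bd (n := n) (by omega) p hp).2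
          omega
        · omega
      · rcases free_cols hg hgx with ⟨p, hp, h⟩ | h
        · have := (PP_bd (n := n) (by omega) p hp).2
          omega
        · omega
      · rcases h with h | h
        · rcases h with h | h | h | h <;> omega
        · rw [free_imps] at h
          rcases h with ⟨g, hg, hgx⟩ | h
          · rcases free_neqs hg hgx with h | h
            · have := (DD_bd (n := n) (by omega) x h).2
              omega
            · omega
          · exact h
  · refine ⟨⟨(bb_Kf _).mono (by omega), ?_⟩, ?_⟩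
    · refine (sz_Kf h1 (by rw [len_PP]; omega) (fun x hx => (PP_bd (by omega) x hx).1)).trans ?_
      omega
    · intro x hx hfree
      obtain ⟨h15, h⟩ : x ≠ 15 ∧ ((x ≠ 17 ∧ (Fm.imp (hi 15 17) (imps (cols (PP k) 17) .bot)).Free x) ∨
        False) := hfree
      rcases h with ⟨h17, h⟩ | h
      · rcases h with h | h
        · rcases h with h | h | h | h <;> omega
        · rw [free_imps] at h
          rcases h with ⟨g, hg, hgx⟩ | h
          · rcases free_cols hg hgx with ⟨p, hp, h⟩ | h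
            · have := (PP_bd (n := n) (by omega) p hp).2
              omega
            · omega
          · exact h
      · exact h
  · refine ⟨⟨bb_hi _ _ _, ?_⟩, ?_⟩
    · rw [sz_hi]
      unfold pn
      nlinarith
    · intro x hx hfree
      unfold pn at hfree
      rcases hfree with h | h | h | h <;> omega
  · refine ⟨⟨bb_cols _ _ _ g hg, ?_⟩, ?_⟩
    · obtain ⟨x, hx, rfl⟩ := List.mem_map.1 hg
      have := PP_bd (n := n) (by omega) x hx
      rw [sz_col]
      unfold pn
      nlinarith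
    · intro x hx hfree
      rcases free_cols hg hfree with ⟨p, hp, h⟩ | h
      · have := (PP_bd (n := n) (by omega) p hp).2
        omega
      · unfold pn at h
        omega

theorem len_G2 (k r : ℕ) : (G2 k r).length = k + 3 := by
  unfold G2 cols
  simp [len_PP]

/-- no monochromatic triangles -/
def triF : Fml := .all 15 (.all 17 (.all 19 (.all 21 (.imp (col 15 17 21) (.imp (col 15 19 21)
    (.neg (col 17 19 21)))))))

theorem triF_mem : triF ∈ WB := by
  unfold WB U0 triF
  simp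

/-- the instance of the axiom on triangles -/
theorem tri_inst {Δ G : List Fml} {s l n : ℕ} (hs : 1000 * (n + 1) ^ 2 ≤ s) (hl : Δ.length ≤ l)
    (hΔ : ∀ g ∈ Δ, W 9 s g) {p d : ℕ} (hp : 40 ≤ p) (hp' : p ≤ 42 * (n + 1)) (hd : 40 ≤ d)
    (hd' : d ≤ 42 * (n + 1)) :
    ND WB 9 s l G 5 Δ (.imp (col p 17 d) (.imp (col p 19 d) (.neg (col 17 19 d)))) := by
  have hn : 1 ≤ n + 1 := by omega
  have hsq : n + 1 ≤ (n + 1) ^ 2 := by nlinarith
  have bb0 : ∀ u v w a b : ℕ, BB 0 (Fm.imp (col u v w) (.imp (col u a w) (.neg (col v a b)))) :=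
    fun u v w a b => (bb_col _ _ _ _).imp ((bb_col _ _ _ _).imp (bb_neg (bb_col _ _ _ _)))
  have h0 : ND WB 9 s l G 1 Δ triF := by
    refine .thm hl hΔ ⟨?_, ?_⟩ (.inr (.inl triF_mem))
    · exact (((((bb0 15 17 21 19 21).all 21).all 19).all 17).all 15).mono (by omega)
    · unfold triF
      simp only [sz_all, sz_imp, sz_col, sz_neg]
      omega
  have h1 := h0.allE p (x := 15) (by
    refine .inr (.inr ⟨by omega, .inr (.inr ⟨by omega, .inr (.inr ⟨by omega, ?_⟩)⟩)⟩)
    exact ⟨trivial, trivial, trivial, trivial⟩) (by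
    refine ⟨?_, ?_⟩
    · exact ((((bb0 p 17 21 19 21).all 21).all 19).all 17).mono (by omega)
    · show sz (.all 17 (.all 19 (.all 21 (.imp (col p 17 21) (.imp (col p 19 21)
        (.neg (col 17 19 21))))))) ≤ s
      simp only [sz_all, sz_imp, sz_col, sz_neg]
      omega)
  have h1' : ND WB 9 s l G 2 Δ (.all 17 (.all 19 (.all 21 (.imp (col p 17 21) (.imp (col p 19 21)
        (.neg (col 17 19 21))))))) := h1
  have hW := (ND_wfs h1').2.2
  have h2 := h1'.allE 17 (x := 17) (by
    refine .inr (.inr ⟨by omega, .inr (.inr ⟨by omega, ?_⟩)⟩)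
    exact ⟨trivial, trivial, trivial, trivial⟩) (by
    rw [subst_self]
    refine ⟨?_, ?_⟩
    · exact (((bb0 p 17 21 19 21).all 21).all 19).mono (by omega)
    · simp only [sz_all, sz_imp, sz_col, sz_neg]
      omega)
  rw [subst_self] at h2
  have h3 := h2.allE 19 (x := 19) (by
    refine .inr (.inr ⟨by omega, ?_⟩)
    exact ⟨trivial, trivial, trivial, trivial⟩) (by
    rw [subst_self]
    refine ⟨?_, ?_⟩
    · exact ((bb0 p 17 21 19 21).all 21).mono (by omega)
    · simp only [sz_all, sz_imp, sz_col, sz_neg]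
      omega)
  rw [subst_self] at h3
  have e : (Fm.imp (col p 17 21) (.imp (col p 19 21) (.neg (col 17 19 21)))).subst 21 d =
      Fm.imp (col p 17 d) (.imp (col p 19 d) (.neg (col 17 19 d))) := by
    have hr : Pool.Agent.TH672.Form.ren 21 d p = p := by
      unfold Pool.Agent.TH672.Form.ren
      rw [if_neg]
      omega
    simp only [Fm.subst, col, Fm.neg, hr]
    rfl
  have h4 := h3.allE d (x := 21) ⟨trivial, trivial, trivial, trivial⟩ (by
    rw [e]
    refine ⟨?_, ?_⟩
    · exact (bb0 p 17 d 19 d).mono (by omega)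
    · simp only [sz_imp, sz_col, sz_neg]
      omega)
  rw [e] at h4
  exact h4

/-- **Module D2a.** -/
theorem d2a : D2aT := by
  refine ⟨1000, fun C hC n k r j hkr hj G hF => ?_⟩
  obtain ⟨s, hs⟩ : ∃ s, s = C * (n + 1) ^ 3 := ⟨_, rfl⟩
  obtain ⟨l, hl⟩ : ∃ l, l = C * (n + 1) := ⟨_, rfl⟩
  rw [← hs, ← hl]
  have hn : 1 ≤ n + 1 := by omega
  have hsq : n + 1 ≤ (n + 1) ^ 2 := by nlinarith
  have hcu : (n + 1) ^ 2 ≤ (n + 1) ^ 3 := Nat.pow_le_pow_right hn (by norm_num)
  have hs1 : 1000 * (n + 1) ^ 2 ≤ s := by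
    rw [hs]
    exact Nat.mul_le_mul hC hcu
  have hl1 : 1000 * (n + 1) ≤ l := by
    rw [hl]
    exact Nat.mul_le_mul_right _ hC
  -- the premises
  obtain ⟨LL, hLL⟩ : ∃ LL, LL = cols (PJ k j) 17 ++ (cols (PJ k j) 19 ++
      (col 17 19 23 :: neqs (DJ r j) 23)) := ⟨_, rfl⟩
  have hlenLL : LL.length = (k + 1) + ((k + 1) + (r - 1 + 1)) := by
    rw [hLL]
    simp only [List.length_append, List.length_cons, cols, neqs, List.length_map, len_PJ, len_DJ]
  have hWL : ∀ g ∈ LL, W 9 s g := by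
    intro g hg
    rw [hLL] at hg
    rcases List.mem_append.1 hg with hg | hg
    · refine ⟨bb_cols _ _ _ g hg, ?_⟩
      obtain ⟨x, hx, rfl⟩ := List.mem_map.1 hg
      have := PJ_bd hkr hj x hx
      rw [sz_col]
      omega
    · rcases List.mem_append.1 hg with hg | hg
      · refine ⟨bb_cols _ _ _ g hg, ?_⟩
        obtain ⟨x, hx, rfl⟩ := List.mem_map.1 hg
        have := PJ_bd hkr hj x hx
        rw [sz_col]
        omega
      · rcases List.mem_cons.1 hg with rfl | hg
        · refine ⟨bb_col _ _ _ _, ?_⟩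
          rw [sz_col]
          omega
        · refine ⟨bb_neqs _ _ _ g hg, ?_⟩
          obtain ⟨x, hx, rfl⟩ := List.mem_map.1 hg
          have := DJ_bd (n := n) (j := j) (by omega) x hx
          rw [sz_neg, sz_eq]
          omega
  have hG2 := G2_W (n := n) (s := s) (k := k) (r := r) hkr hs1
  have hWD : ∀ g ∈ G2 k r ++ LL, W 9 s g := by
    intro g hg
    rcases List.mem_append.1 hg with hg | hg
    · exact (hG2 g hg).1
    · exact hWL g hg
  have hlen : (G2 k r ++ LL).length ≤ l := by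
    rw [List.length_append, hlenLL, len_G2]
    omega
  have hyp : ∀ g ∈ G2 k r ++ LL, ND WB 9 s l G 1 (G2 k r ++ LL) g := fun g hg => .hyp hlen hWD hg
  have hbody : ∀ P D, Hyp P D = .all 17 (.all 19 (.all 23 (imps (cols P 17 ++ (cols P 19 ++
      (col 17 19 23 :: neqs D 23))) .bot))) := by
    intro P D
    unfold Hyp
    simp only [imps_append, imps_cons]
  have bb0 : ∀ P D, BB 0 (imps (cols P 17 ++ (cols P 19 ++ (col 17 19 23 :: neqs D 23))) .bot) := by
    intro P D
    apply BB.imps _ (bb_bot 0)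
    intro g hg
    rcases List.mem_append.1 hg with hg | hg
    · exact bb_cols _ _ _ g hg
    · rcases List.mem_append.1 hg with hg | hg
      · exact bb_cols _ _ _ g hg
      · rcases List.mem_cons.1 hg with rfl | hg
        · exact bb_col _ _ _ _
        · exact bb_neqs _ _ _ g hg
  -- the colours of the pairs in `S` are `d_0, ..., d_(r-1)`
  have a0 : ND WB 9 s l G 1 (G2 k r ++ LL) (Hyp (PP k) (DD r)) := by
    apply hyp
    apply List.mem_append_left
    unfold G2
    simp
  have hszH : sz (Hyp (PP k) (DD r)) ≤ 650 * (n + 1) ^ 2 :=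
    sz_Hyp hn (by rw [len_PP]; omega) (by rw [len_DD]; omega)
      (fun x hx => (PP_bd (by omega) x hx).1) (fun x hx => (DD_bd (by omega) x hx).1)
  rw [hbody] at a0 hszH
  simp only [sz_all] at hszH
  have ff0 : ∀ x, (imps (cols (PP k) 17 ++ (cols (PP k) 19 ++ (col 17 19 23 :: neqs (DD r) 23)))
      .bot).FreeFor x x := by
    intro x
    refine freeFor_imps (fun g hg => ?_) (show (Fm.bot : Fml).FreeFor x x from trivial)
    rcases List.mem_append.1 hg with hg | hg
    · obtain ⟨x, hx, rfl⟩ := List.mem_map.1 hg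
      trivial
    · rcases List.mem_append.1 hg with hg | hg
      · obtain ⟨x, hx, rfl⟩ := List.mem_map.1 hg
        trivial
      · rcases List.mem_cons.1 hg with rfl | hg
        · trivial
        · obtain ⟨x, hx, rfl⟩ := List.mem_map.1 hg
          exact ⟨trivial, trivial⟩
  have a1 := a0.allE 17 (x := 17) (.inr (.inr ⟨by omega, .inr (.inr ⟨by omega, ff0 17⟩)⟩)) (by
    rw [subst_self]
    refine ⟨(((bb0 _ _).all 23).all 19).mono (by omega), ?_⟩
    simp only [sz_all]
    omega)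
  rw [subst_self] at a1
  have a2 := a1.allE 19 (x := 19) (.inr (.inr ⟨by omega, ff0 19⟩)) (by
    rw [subst_self]
    refine ⟨((bb0 _ _).all 23).mono (by omega), ?_⟩
    simp only [sz_all]
    omega)
  rw [subst_self] at a2
  have a3 := a2.allE 23 (x := 23) (ff0 23) (by
    rw [subst_self]
    refine ⟨(bb0 _ _).mono (by omega), ?_⟩
    omega)
  rw [subst_self] at a3
  -- the premises are available
  have hmemPJ : ∀ v, ∀ g ∈ cols (PP k) v, g ∈ cols (PJ k j) v := by
    intro v g hg
    obtain ⟨x, hx, rfl⟩ := List.mem_map.1 hg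
    exact List.mem_map.2 ⟨x, List.mem_append_left _ hx, rfl⟩
  have hlast : ∀ v, col (pn k) v (dn j) ∈ cols (PJ k j) v := by
    intro v
    exact List.mem_map.2 ⟨(pn k, dn j), List.mem_append_right _ (by simp), rfl⟩
  have hc19 : col 17 19 23 ∈ G2 k r ++ LL := by
    rw [hLL]
    simp
  -- the colour `d_j` is impossible
  have hno : ND WB 9 s l G 20 (G2 k r ++ LL) (Fm.neg (.eq 23 (dn j))) := by
    have hWe : W 9 s (Fm.eq 23 (dn j) : Fml) := by
      refine ⟨bb_eq _ _ _, ?_⟩
      rw [sz_eq]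
      simp only [dn]
      omega
    have hWD' : ∀ g ∈ (G2 k r ++ LL) ++ [Fm.eq 23 (dn j)], W 9 s g := by
      intro g hg
      rcases List.mem_append.1 hg with hg | hg
      · exact hWD g hg
      · rw [List.mem_singleton] at hg
        rw [hg]
        exact hWe
    have hlen' : ((G2 k r ++ LL) ++ [Fm.eq 23 (dn j)]).length ≤ l := by
      rw [List.length_append, List.length_append, hlenLL, len_G2, List.length_singleton]
      omega
    have hyp' : ∀ g ∈ (G2 k r ++ LL) ++ [Fm.eq 23 (dn j)],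
        ND WB 9 s l G 1 ((G2 k r ++ LL) ++ [Fm.eq 23 (dn j)]) g := fun g hg => .hyp hlen' hWD' hg
    have hdn : dn j ≤ 42 * (n + 1) := by simp only [dn]; omega
    have hdn' : 40 ≤ dn j := by simp only [dn]; omega
    have hpn : pn k ≤ 42 * (n + 1) := by simp only [pn]; omega
    have hpn' : 40 ≤ pn k := by simp only [pn]; omega
    have b1 : ND WB 9 s l G 1 ((G2 k r ++ LL) ++ [Fm.eq 23 (dn j)])
        ((Fm.eq 23 (dn j)).imp ((col 17 19 23).imp (col 17 19 (dn j)))) := by
      refine .thm hlen' hWD' ⟨(bb_eq _ _ _).imp ((bb_col _ _ _ _).imp (bb_col _ _ _ _)), ?_⟩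
        (.inr (.inr (.repl 23 (dn j) (col 17 19 23) (col 17 19 (dn j)) ?_)))
      · simp only [sz_imp, sz_eq, sz_col]
        omega
      · exact .op (.inl rfl) (.inl rfl) (.inr ⟨rfl, rfl⟩) (.inr ⟨rfl, rfl⟩)
    have b2 := (b1.mp (hyp' _ (by simp))).mp (hyp' (col 17 19 23) (List.mem_append_left _ hc19))
    have b3 := tri_inst (n := n) (G := G) hs1 hlen' hWD' hpn' hpn hdn' hdn
    have b4 := b3.mp (hyp' (col (pn k) 17 (dn j)) (by
      apply List.mem_append_left
      apply List.mem_append_right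
      rw [hLL]
      exact List.mem_append_left _ (hlast 17)))
    have b5 := b4.mp (hyp' (col (pn k) 19 (dn j)) (by
      apply List.mem_append_left
      apply List.mem_append_right
      rw [hLL]
      exact List.mem_append_right _ (List.mem_append_left _ (hlast 19))))
    have b6 := b5.mp b2
    have b7 := b6.impI (by
      refine ⟨bb_neg (bb_eq _ _ _), ?_⟩
      rw [sz_imp, sz_eq, sz_bot]
      omega)
    exact b7.up (by omega)
  have a4 := ND_mps (M := 20) a3 (by
    intro g hg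
    rcases List.mem_append.1 hg with hg | hg
    · refine (hyp g ?_).up (by omega)
      apply List.mem_append_right
      rw [hLL]
      exact List.mem_append_left _ (hmemPJ 17 g hg)
    · rcases List.mem_append.1 hg with hg | hg
      · refine (hyp g ?_).up (by omega)
        apply List.mem_append_right
        rw [hLL]
        exact List.mem_append_right _ (List.mem_append_left _ (hmemPJ 19 g hg))
      · rcases List.mem_cons.1 hg with rfl | hg
        · exact (hyp _ hc19).up (by omega)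
        · obtain ⟨d, hd, rfl⟩ := List.mem_map.1 hg
          obtain ⟨i, hi, rfl⟩ := List.mem_map.1 hd
          rw [List.mem_range] at hi
          by_cases hij : i = j
          · rw [hij]
            exact hno
          · refine (hyp _ ?_).up (by omega)
            apply List.mem_append_right
            rw [hLL]
            apply List.mem_append_right
            apply List.mem_append_right
            apply List.mem_cons_of_mem
            exact List.mem_map.2 ⟨dn i, mem_DJ hi hij hj, rfl⟩)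
  have hlenP : (cols (PP k) 17 ++ (cols (PP k) 19 ++ (col 17 19 23 :: neqs (DD r) 23))).length =
      k + (k + (r + 1)) := by
    simp only [List.length_append, List.length_cons, cols, neqs, List.length_map, len_PP, len_DD]
  rw [hlenP] at a4
  -- the conclusion
  have hszH' : sz (Hyp (PJ k j) (DJ r j)) ≤ 650 * (n + 1) ^ 2 :=
    sz_Hyp hn (by rw [len_PJ]; omega) (by rw [len_DJ]; omega)
      (fun x hx => (PJ_bd hkr hj x hx).1) (fun x hx => (DJ_bd (by omega) x hx).1)
  have hszK : sz (Kf (PJ k j)) ≤ 330 * (n + 1) ^ 2 :=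
    sz_Kf hn (by rw [len_PJ]; omega) (fun x hx => (PJ_bd hkr hj x hx).1)
  have hszH2 := hszH'
  rw [hbody, ← hLL] at hszH2
  simp only [sz_all] at hszH2
  have c1 := ND_impIs a4 ⟨by rw [hLL]; exact (bb0 _ _).mono (by omega), by omega⟩
  have hb1 : BB 0 (imps LL .bot) := by rw [hLL]; exact bb0 _ _
  have c2 := c1.allI (x := 23) (fun g hg => (hG2 g hg).2 23 (by omega))
    ⟨(hb1.all 23).mono (by omega), by rw [sz_all]; omega⟩
  have c3 := c2.allI (x := 19) (fun g hg => (hG2 g hg).2 19 (by omega))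
    ⟨((hb1.all 23).all 19).mono (by omega), by simp only [sz_all]; omega⟩
  have c4 := c3.allI (x := 17) (fun g hg => (hG2 g hg).2 17 (by omega))
    ⟨(((hb1.all 23).all 19).all 17).mono (by omega), by simp only [sz_all]; omega⟩
  rw [hLL, ← hbody] at c4
  have c5 : ND WB 9 s l G 1 (G2 k r) (FF (PJ k j) (DJ r j)) := by
    refine .thm (by rw [len_G2]; omega) (fun g hg => (hG2 g hg).1) ⟨?_, ?_⟩ (.inl hF)
    · exact ((bb_Hyp _ _).mono (by omega)).imp (((bb_Kf _).mono (by omega)).imp (bb_bot _))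
    · unfold FF
      simp only [sz_imp, sz_bot]
      omega
  have c6 := c5.mp c4
  refine c6.up ?_
  have hlen2 : LL.length ≤ 3 * (n + 1) := by rw [hlenLL]; omega
  rw [← hLL]
  have h7 : (k + (k + (r + 1))) * (20 + 1) ≤ (2 * (n + 1)) * 21 := Nat.mul_le_mul_right _ (by omega)
  omega

end Pool.Agent.J6H92.BC
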