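import Pool.Agent.J6H92.BC.D2a
import Pool.Agent.J6H49.BC.Stm4

/-!
# Sums of small numbers
-/

set_option autoImplicit false

namespace Pool.Agent.J6H92.BC

open Pool.Agent.TH672 (Fm LogK ReplK Sw)
open Pool.Agent.TH636.BC (Fml blk inst lt col robinson TE)
open Pool.Agent.J6H49.BC

theorem sz_add (x y z : ℕ) : sz (.add x y z : Fml) = x + y + z + 7 := by
  simp only [sz, Pool.Agent.TH636.BC.str, List.length_append, len_varStr, List.length_cons,
    List.length_nil]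
  omega

theorem bb_add (c x y z : ℕ) : BB c (.add x y z : Fml) := fun _ => .add _ _ _ _ _

theorem cx0 {φ : Fml} (h : BB 0 φ) : Pool.Agent.TH636.BC.Cx false 1 φ := .lift (h true)

theorem U {φ : Fml} (h : Pool.Agent.TH636.BC.Cx false 1 φ) : BB 2 φ := fun _ => .lift h

theorem rob_mem {φ : Fml} (h : φ ∈ robinson) : φ ∈ WB := by
  unfold WB
  simp [h]

section rules

variable {G Δ : List Fml} {c s l : ℕ}

/-- the axiom `x + 0 = x` -/
theorem addZero (hc : 2 ≤ c) (hl : Δ.length ≤ l) (hΔ : ∀ g ∈ Δ, W c s g) {x z : ℕ} (hx : 5 ≤ x)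
    (hs : 3 * (x + z) + 200 ≤ s) :
    ND WB c s l G 3 Δ (.imp (.zero z) (.add x z x)) := by
  have b0 : ∀ a b d e : ℕ, BB 0 (Fm.imp (.zero a) (.add b d e) : Fml) :=
    fun a b d e => (bb_zero _ _).imp (bb_add _ _ _ _)
  have h0 : ND WB c s l G 1 Δ (.all 0 (.all 1 (.imp (.zero 1) (.add 0 1 0)))) := by
    refine .thm hl hΔ ⟨(U (.all (.all (cx0 (b0 _ _ _ _))))).mono (by omega), ?_⟩ (.inr (.inl (rob_mem ?_)))
    · simp only [sz_all, sz_imp, sz_zero, sz_add]
      omega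
    · simp [robinson]
  have e1 : (Fm.all 1 (.imp (.zero 1) (.add 0 1 0)) : Fml).subst 0 x =
      Fm.all 1 (.imp (.zero 1) (.add x 1 x)) := by
    simp [Fm.subst, Pool.Agent.TH672.Form.ren]
  have h1 := h0.allE x (x := 0) (.inr (.inr ⟨by omega, trivial, trivial⟩)) (by
    rw [e1]
    refine ⟨(U (.all (cx0 (b0 _ _ _ _)))).mono (by omega), ?_⟩
    simp only [sz_all, sz_imp, sz_zero, sz_add]
    omega)
  rw [e1] at h1
  have hx1 : x ≠ 1 := by omega
  have e2 : (Fm.imp (.zero 1) (.add x 1 x) : Fml).subst 1 z = Fm.imp (.zero z) (.add x z x) := by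
    simp [Fm.subst, Pool.Agent.TH672.Form.ren, hx1]
  have h2 := h1.allE z (x := 1) ⟨trivial, trivial⟩ (by
    rw [e2]
    refine ⟨(b0 _ _ _ _).mono (by omega), ?_⟩
    simp only [sz_imp, sz_zero, sz_add]
    omega)
  rw [e2] at h2
  exact h2

/-- the axiom `x + S y = S (x + y)` -/
theorem addSucc (hc : 2 ≤ c) (hl : Δ.length ≤ l) (hΔ : ∀ g ∈ Δ, W c s g) {x y y' z z' : ℕ}
    (hx : 5 ≤ x) (hy : 5 ≤ y) (hy' : 5 ≤ y') (hz : 5 ≤ z)
    (hs : 3 * (x + y + y' + z + z') + 400 ≤ s) :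
    ND WB c s l G 6 Δ (.imp (.succ y y') (.imp (.add x y z) (.imp (.succ z z') (.add x y' z')))) := by
  have b0 : ∀ a b d e f g h i j k : ℕ, BB 0 (Fm.imp (.succ a b) (.imp (.add d e f)
      (.imp (.succ g h) (.add i j k))) : Fml) :=
    fun a b d e f g h i j k => (bb_succ _ _ _).imp ((bb_add _ _ _ _).imp
      ((bb_succ _ _ _).imp (bb_add _ _ _ _)))
  have h0 : ND WB c s l G 1 Δ (.all 0 (.all 1 (.all 2 (.all 3 (.all 4 (.imp (.succ 1 2)
      (.imp (.add 0 1 3) (.imp (.succ 3 4) (.add 0 2 4)))))))))  := by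
    refine .thm hl hΔ ⟨(U (.all (.all (.all (.all (.all (cx0 (b0 _ _ _ _ _ _ _ _ _ _)))))))).mono (by omega), ?_⟩ (.inr (.inl (rob_mem ?_)))
    · simp only [sz_all, sz_imp, sz_succ, sz_add]
      omega
    · simp [robinson]
  have e1 : (Fm.all 1 (.all 2 (.all 3 (.all 4 (.imp (.succ 1 2)
      (.imp (.add 0 1 3) (.imp (.succ 3 4) (.add 0 2 4))))))) : Fml).subst 0 x =
      Fm.all 1 (.all 2 (.all 3 (.all 4 (.imp (.succ 1 2)
      (.imp (.add x 1 3) (.imp (.succ 3 4) (.add x 2 4))))))) := by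
    simp [Fm.subst, Pool.Agent.TH672.Form.ren]
  have h1 := h0.allE x (x := 0) (.inr (.inr ⟨by omega, .inr (.inr ⟨by omega, .inr (.inr
    ⟨by omega, .inr (.inr ⟨by omega, trivial, trivial, trivial, trivial⟩)⟩)⟩)⟩)) (by
    rw [e1]
    refine ⟨(U (.all (.all (.all (.all (cx0 (b0 _ _ _ _ _ _ _ _ _ _))))))).mono (by omega), ?_⟩
    simp only [sz_all, sz_imp, sz_succ, sz_add]
    omega)
  rw [e1] at h1
  have hx1 : x ≠ 1 := by omega
  have e2 : (Fm.all 2 (.all 3 (.all 4 (.imp (.succ 1 2)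
      (.imp (.add x 1 3) (.imp (.succ 3 4) (.add x 2 4)))))) : Fml).subst 1 y =
      Fm.all 2 (.all 3 (.all 4 (.imp (.succ y 2)
      (.imp (.add x y 3) (.imp (.succ 3 4) (.add x 2 4)))))) := by
    simp [Fm.subst, Pool.Agent.TH672.Form.ren, hx1]
  have h2 := h1.allE y (x := 1) (.inr (.inr ⟨by omega, .inr (.inr
    ⟨by omega, .inr (.inr ⟨by omega, trivial, trivial, trivial, trivial⟩)⟩)⟩)) (by
    rw [e2]
    refine ⟨(U (.all (.all (.all (cx0 (b0 _ _ _ _ _ _ _ _ _ _)))))).mono (by omega), ?_⟩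
    simp only [sz_all, sz_imp, sz_succ, sz_add]
    omega)
  rw [e2] at h2
  have hx2 : x ≠ 2 := by omega
  have hy2 : y ≠ 2 := by omega
  have e3 : (Fm.all 3 (.all 4 (.imp (.succ y 2)
      (.imp (.add x y 3) (.imp (.succ 3 4) (.add x 2 4))))) : Fml).subst 2 y' =
      Fm.all 3 (.all 4 (.imp (.succ y y')
      (.imp (.add x y 3) (.imp (.succ 3 4) (.add x y' 4))))) := by
    simp [Fm.subst, Pool.Agent.TH672.Form.ren, hx2, hy2]
  have h3 := h2.allE y' (x := 2) (.inr (.inr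
    ⟨by omega, .inr (.inr ⟨by omega, trivial, trivial, trivial, trivial⟩)⟩)) (by
    rw [e3]
    refine ⟨(U (.all (.all (cx0 (b0 _ _ _ _ _ _ _ _ _ _))))).mono (by omega), ?_⟩
    simp only [sz_all, sz_imp, sz_succ, sz_add]
    omega)
  rw [e3] at h3
  have hx3 : x ≠ 3 := by omega
  have hy3 : y ≠ 3 := by omega
  have hy3' : y' ≠ 3 := by omega
  have e4 : (Fm.all 4 (.imp (.succ y y')
      (.imp (.add x y 3) (.imp (.succ 3 4) (.add x y' 4)))) : Fml).subst 3 z =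
      Fm.all 4 (.imp (.succ y y') (.imp (.add x y z) (.imp (.succ z 4) (.add x y' 4)))) := by
    simp [Fm.subst, Pool.Agent.TH672.Form.ren, hx3, hy3, hy3']
  have h4 := h3.allE z (x := 3) (.inr (.inr ⟨by omega, trivial, trivial, trivial, trivial⟩)) (by
    rw [e4]
    refine ⟨(U (.all (cx0 (b0 _ _ _ _ _ _ _ _ _ _)))).mono (by omega), ?_⟩
    simp only [sz_all, sz_imp, sz_succ, sz_add]
    omega)
  rw [e4] at h4
  have hx4 : x ≠ 4 := by omega
  have hy4 : y ≠ 4 := by omega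
  have hy4' : y' ≠ 4 := by omega
  have hz4 : z ≠ 4 := by omega
  have e5 : (Fm.imp (.succ y y') (.imp (.add x y z) (.imp (.succ z 4) (.add x y' 4))) : Fml).subst
      4 z' = Fm.imp (.succ y y') (.imp (.add x y z) (.imp (.succ z z') (.add x y' z'))) := by
    simp [Fm.subst, Pool.Agent.TH672.Form.ren, hx4, hy4, hy4', hz4]
  have h5 := h4.allE z' (x := 4) ⟨trivial, trivial, trivial, trivial⟩ (by
    rw [e5]
    refine ⟨(b0 _ _ _ _ _ _ _ _ _ _).mono (by omega), ?_⟩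
    simp only [sz_imp, sz_succ, sz_add]
    omega)
  rw [e5] at h5
  exact h5

/-- the successor is unique -/
theorem succUnique (hc : 2 ≤ c) (hl : Δ.length ≤ l) (hΔ : ∀ g ∈ Δ, W c s g) {a b d : ℕ}
    (ha : 5 ≤ a) (hb : b ≠ 2) (hs : 3 * (a + b + d) + 200 ≤ s) :
    ND WB c s l G 4 Δ (.imp (.succ a b) (.imp (.succ a d) (.eq b d))) := by
  have b0 : ∀ i j k m n o : ℕ, BB 0 (Fm.imp (.succ i j) (.imp (.succ k m) (.eq n o)) : Fml) :=
    fun _ _ _ _ _ _ => (bb_succ _ _ _).imp ((bb_succ _ _ _).imp (bb_eq _ _ _))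
  have h0 : ND WB c s l G 1 Δ (.all 0 (.all 1 (.all 2 (.imp (.succ 0 1)
      (.imp (.succ 0 2) (.eq 1 2)))))) := by
    refine .thm hl hΔ ⟨(U (.all (.all (.all (cx0 (b0 _ _ _ _ _ _)))))).mono (by omega), ?_⟩
      (.inr (.inl (rob_mem ?_)))
    · simp only [sz_all, sz_imp, sz_succ, sz_eq]
      omega
    · simp [robinson]
  have e1 : (Fm.all 1 (.all 2 (.imp (.succ 0 1) (.imp (.succ 0 2) (.eq 1 2)))) : Fml).subst 0 a =
      Fm.all 1 (.all 2 (.imp (.succ a 1) (.imp (.succ a 2) (.eq 1 2)))) := by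
    simp [Fm.subst, Pool.Agent.TH672.Form.ren]
  have h1 := h0.allE a (x := 0) (.inr (.inr ⟨by omega, .inr (.inr
    ⟨by omega, trivial, trivial, trivial⟩)⟩)) (by
    rw [e1]
    refine ⟨(U (.all (.all (cx0 (b0 _ _ _ _ _ _))))).mono (by omega), ?_⟩
    simp only [sz_all, sz_imp, sz_succ, sz_eq]
    omega)
  rw [e1] at h1
  have ha1 : a ≠ 1 := by omega
  have e2 : (Fm.all 2 (.imp (.succ a 1) (.imp (.succ a 2) (.eq 1 2))) : Fml).subst 1 b =
      Fm.all 2 (.imp (.succ a b) (.imp (.succ a 2) (.eq b 2))) := by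
    simp [Fm.subst, Pool.Agent.TH672.Form.ren, ha1]
  have h2 := h1.allE b (x := 1) (.inr (.inr ⟨by omega, trivial, trivial, trivial⟩)) (by
    rw [e2]
    refine ⟨(U (.all (cx0 (b0 _ _ _ _ _ _)))).mono (by omega), ?_⟩
    simp only [sz_all, sz_imp, sz_succ, sz_eq]
    omega)
  rw [e2] at h2
  have ha2 : a ≠ 2 := by omega
  have e3 : (Fm.imp (.succ a b) (.imp (.succ a 2) (.eq b 2)) : Fml).subst 2 d =
      Fm.imp (.succ a b) (.imp (.succ a d) (.eq b d)) := by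
    simp [Fm.subst, Pool.Agent.TH672.Form.ren, ha2, hb]
  have h3 := h2.allE d (x := 2) ⟨trivial, trivial, trivial⟩ (by
    rw [e3]
    refine ⟨(b0 _ _ _ _ _ _).mono (by omega), ?_⟩
    simp only [sz_imp, sz_succ, sz_eq]
    omega)
  rw [e3] at h3
  exact h3

/-- the sum is unique -/
theorem addUnique (hc : 2 ≤ c) (hl : Δ.length ≤ l) (hΔ : ∀ g ∈ Δ, W c s g) {a b d e : ℕ}
    (ha : 5 ≤ a) (hb : 5 ≤ b) (hd : d ≠ 3) (hs : 3 * (a + b + d + e) + 300 ≤ s) :
    ND WB c s l G 5 Δ (.imp (.add a b d) (.imp (.add a b e) (.eq d e))) := by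
  have b0 : ∀ i j k m n o p q : ℕ, BB 0 (Fm.imp (.add i j k) (.imp (.add m n o) (.eq p q)) : Fml) :=
    fun _ _ _ _ _ _ _ _ => (bb_add _ _ _ _).imp ((bb_add _ _ _ _).imp (bb_eq _ _ _))
  have h0 : ND WB c s l G 1 Δ (.all 0 (.all 1 (.all 2 (.all 3 (.imp (.add 0 1 2)
      (.imp (.add 0 1 3) (.eq 2 3))))))) := by
    refine .thm hl hΔ ⟨(U (.all (.all (.all (.all (cx0 (b0 _ _ _ _ _ _ _ _))))))).mono (by omega), ?_⟩
      (.inr (.inl (rob_mem ?_)))
    · simp only [sz_all, sz_imp, sz_add, sz_eq]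
      omega
    · simp [robinson]
  have e1 : (Fm.all 1 (.all 2 (.all 3 (.imp (.add 0 1 2) (.imp (.add 0 1 3) (.eq 2 3))))) :
      Fml).subst 0 a = Fm.all 1 (.all 2 (.all 3 (.imp (.add a 1 2)
      (.imp (.add a 1 3) (.eq 2 3))))) := by
    simp [Fm.subst, Pool.Agent.TH672.Form.ren]
  have h1 := h0.allE a (x := 0) (.inr (.inr ⟨by omega, .inr (.inr
    ⟨by omega, .inr (.inr ⟨by omega, trivial, trivial, trivial⟩)⟩)⟩)) (by
    rw [e1]
    refine ⟨(U (.all (.all (.all (cx0 (b0 _ _ _ _ _ _ _ _)))))).mono (by omega), ?_⟩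
    simp only [sz_all, sz_imp, sz_add, sz_eq]
    omega)
  rw [e1] at h1
  have ha1 : a ≠ 1 := by omega
  have e2 : (Fm.all 2 (.all 3 (.imp (.add a 1 2) (.imp (.add a 1 3) (.eq 2 3)))) : Fml).subst 1 b =
      Fm.all 2 (.all 3 (.imp (.add a b 2) (.imp (.add a b 3) (.eq 2 3)))) := by
    simp [Fm.subst, Pool.Agent.TH672.Form.ren, ha1]
  have h2 := h1.allE b (x := 1) (.inr (.inr ⟨by omega, .inr (.inr
    ⟨by omega, trivial, trivial, trivial⟩)⟩)) (by
    rw [e2]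
    refine ⟨(U (.all (.all (cx0 (b0 _ _ _ _ _ _ _ _))))).mono (by omega), ?_⟩
    simp only [sz_all, sz_imp, sz_add, sz_eq]
    omega)
  rw [e2] at h2
  have ha2 : a ≠ 2 := by omega
  have hb2 : b ≠ 2 := by omega
  have e3 : (Fm.all 3 (.imp (.add a b 2) (.imp (.add a b 3) (.eq 2 3))) : Fml).subst 2 d =
      Fm.all 3 (.imp (.add a b d) (.imp (.add a b 3) (.eq d 3))) := by
    simp [Fm.subst, Pool.Agent.TH672.Form.ren, ha2, hb2]
  have h3 := h2.allE d (x := 2) (.inr (.inr ⟨by omega, trivial, trivial, trivial⟩)) (by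
    rw [e3]
    refine ⟨(U (.all (cx0 (b0 _ _ _ _ _ _ _ _)))).mono (by omega), ?_⟩
    simp only [sz_all, sz_imp, sz_add, sz_eq]
    omega)
  rw [e3] at h3
  have ha3 : a ≠ 3 := by omega
  have hb3 : b ≠ 3 := by omega
  have e4 : (Fm.imp (.add a b d) (.imp (.add a b 3) (.eq d 3)) : Fml).subst 3 e =
      Fm.imp (.add a b d) (.imp (.add a b e) (.eq d e)) := by
    simp [Fm.subst, Pool.Agent.TH672.Form.ren, ha3, hb3, hd]
  have h4 := h3.allE e (x := 3) ⟨trivial, trivial, trivial⟩ (by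
    rw [e4]
    refine ⟨(b0 _ _ _ _ _ _ _ _).mono (by omega), ?_⟩
    simp only [sz_imp, sz_add, sz_eq]
    omega)
  rw [e4] at h4
  exact h4

end rules

/-! ### the chain -/

theorem len_chain (n : ℕ) : (chain n).length = n + 1 := by simp [chain]

theorem zero_mem_chain (n : ℕ) : Fm.zero (dn 0) ∈ chain n := by simp [chain]

theorem succ_mem_chain {n i : ℕ} (hi : i < n) : Fm.succ (dn i) (dn (i + 1)) ∈ chain n := by
  unfold chain
  exact List.mem_cons_of_mem _ (List.mem_map.2 ⟨i, List.mem_range.2 hi, rfl⟩)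

theorem W_chain {n c s : ℕ} (hs : 200 * (n + 1) ≤ s) : ∀ g ∈ chain n, W c s g := by
  intro g hg
  unfold chain at hg
  rcases List.mem_cons.1 hg with rfl | hg
  · refine ⟨bb_zero _ _, ?_⟩
    rw [sz_zero]
    simp only [dn]
    omega
  · obtain ⟨i, hi, rfl⟩ := List.mem_map.1 hg
    rw [List.mem_range] at hi
    refine ⟨bb_succ _ _ _, ?_⟩
    rw [sz_succ]
    simp only [dn]
    omega

theorem free_chain {n x : ℕ} {g : Fml} (hg : g ∈ chain n) (hx : g.Free x) : 42 ≤ x := by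
  unfold chain at hg
  rcases List.mem_cons.1 hg with rfl | hg
  · have h : x = dn 0 := hx
    simp only [dn] at h
    omega
  · obtain ⟨i, hi, rfl⟩ := List.mem_map.1 hg
    rcases hx with h | h
    · simp only [dn] at h
      omega
    · simp only [dn] at h
      omega

/-- the sums `v + j`, in linearly many steps -/
theorem sums {G Δ : List Fml} {c s l n v : ℕ} (hc : 2 ≤ c) (hs : 1000 * (n + 1) ≤ s)
    (hl : Δ.length ≤ l) (hΔ : ∀ g ∈ Δ, W c s g) (hch : ∀ g ∈ chain n, g ∈ Δ) (j : ℕ)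
    (hj : v + j ≤ n) : ND WB c s l G (12 * j + 5) Δ (Fm.add (dn v) (dn j) (dn (v + j))) := by
  induction j with
  | zero =>
    have h1 := addZero (G := G) (Δ := Δ) (c := c) (s := s) (l := l) (x := dn v) (z := dn 0) (by omega)
      hl hΔ (by simp only [dn]; omega) (by simp only [dn]; omega)
    have h2 := h1.mp (.hyp hl hΔ (hch _ (zero_mem_chain n)))
    rw [Nat.add_zero]
    exact h2.up (by omega)
  | succ j ih =>
    have h0 := ih (by omega)
    have h1 := addSucc (G := G) (Δ := Δ) (c := c) (s := s) (l := l) (x := dn v) (y := dn j)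
      (y' := dn (j + 1)) (z := dn (v + j)) (z' := dn (v + (j + 1))) hc hl hΔ
      (by simp only [dn]; omega) (by simp only [dn]; omega) (by simp only [dn]; omega)
      (by simp only [dn]; omega) (by simp only [dn]; omega)
    have h2 := h1.mp (.hyp hl hΔ (hch _ (succ_mem_chain (by omega))))
    have h3 := h2.mp h0
    have h4 := h3.mp (.hyp hl hΔ (hch _ (succ_mem_chain (i := v + j) (by omega))))
    exact h4.up (by omega)

end Pool.Agent.J6H92.BC
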