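import Pool.Agent.J6H92.BC.G1

/-!
# Modules G1 and G3: one digit of a dyadic numeral
-/

set_option autoImplicit false

namespace Pool.Agent.J6H92.BC

open Pool.Agent.TH672 (Fm LogK ReplK Sw)
open Pool.Agent.TH636.BC (Fml blk inst lt col robinson TE)
open Pool.Agent.J6H49.BC

/-- **Module G1.** -/
theorem g1 : G1T := by
  refine ⟨1000, fun C hC n v hv G => ?_⟩
  have hn : 1 ≤ n + 1 := by omega
  have hcu : n + 1 ≤ (n + 1) ^ 3 := by
    calc n + 1 = (n + 1) ^ 1 := (pow_one _).symm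
      _ ≤ (n + 1) ^ 3 := Nat.pow_le_pow_right hn (by norm_num)
  have hs : 1000 * (n + 1) ≤ C * (n + 1) ^ 3 := Nat.mul_le_mul hC hcu
  have hl : 1000 * (n + 1) ≤ C * (n + 1) := Nat.mul_le_mul_right _ hC
  have h := sums (G := G) (Δ := chain n) (c := 9) (s := C * (n + 1) ^ 3) (l := C * (n + 1)) (n := n)
    (v := v) (by omega) hs (by rw [len_chain]; omega) (W_chain (by omega)) (fun g hg => hg) v
    (by omega)
  rw [← two_mul] at h
  exact h.up (by omega)

/-! ### the formulas -/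

theorem free_digit {φ : Fml} (h : ∀ x, φ.Free x → x = 3) (b : Bool) :
    ∀ x, (digitD 3 b φ).Free x → x = 3 := by
  intro x hx
  cases b
  · obtain ⟨h0, (h1 | h1 | h1) | ⟨h3, (h1 | h1) | h1⟩⟩ : x ≠ 0 ∧ ((x = 3 ∨ x = 3 ∨ x = 0) ∨
      (x ≠ 3 ∧ ((x = 0 ∨ x = 3) ∨ φ.Free x))) := hx
    · exact h1
    · exact h1
    · exact absurd h1 h0
    · exact absurd h1 h0
    · exact absurd h1 h3
    · exact h x h1
  · obtain ⟨h0, (h1 | h1 | h1) | ⟨h3, (h1 | h1) | ⟨h4, (h1 | h1) | h1⟩⟩⟩ : x ≠ 0 ∧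
      ((x = 3 ∨ x = 3 ∨ x = 0) ∨ (x ≠ 1 ∧ ((x = 0 ∨ x = 1) ∨ (x ≠ 3 ∧ ((x = 1 ∨ x = 3) ∨
        φ.Free x))))) := hx
    · exact h1
    · exact h1
    · exact absurd h1 h0
    · exact absurd h1 h0
    · exact absurd h1 h3
    · exact absurd h1 h3
    · exact absurd h1 h4
    · exact h x h1

theorem free_fold {Y : Fml} (h : ∀ x, Y.Free x → x = 3) (w : List Bool) :
    ∀ x, (w.foldr (digitD 3) Y).Free x → x = 3 := by
  induction w with
  | nil => exact h
  | cons b w ih => exact free_digit ih b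

theorem cx_fold {Y : Fml} {c : ℕ} (h : BB c Y) (w : List Bool) :
    Pool.Agent.TH636.BC.Cx false (c + 1) (w.foldr (digitD 3) Y) := by
  induction w with
  | nil => exact .lift (h true)
  | cons b w ih =>
    rw [List.foldr_cons]
    cases b
    · exact .all (.imp (.add _ _ _ _ _) (.all (.imp (.succ _ _ _ _) ih)))
    · exact .all (.imp (.add _ _ _ _ _) (.all (.imp (.succ _ _ _ _) (.all (.imp (.succ _ _ _ _) ih)))))

theorem sz_fold (Y : Fml) (w : List Bool) : sz (w.foldr (digitD 3) Y) ≤ sz Y + 61 * w.length := by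
  induction w with
  | nil => simp
  | cons b w ih =>
    rw [List.foldr_cons, List.length_cons]
    cases b
    · show sz (.all 0 (.imp (.add 3 3 0) (.all 3 (.imp (.succ 0 3) _)))) ≤ _
      simp only [sz_all, sz_imp, sz_add, sz_succ]
      omega
    · show sz (.all 0 (.imp (.add 3 3 0) (.all 1 (.imp (.succ 0 1) (.all 3 (.imp (.succ 1 3) _)))))) ≤ _
      simp only [sz_all, sz_imp, sz_add, sz_succ]
      omega

theorem cs_chain (n : ℕ) : cs (chain n) ≤ 204 * (n + 1) ^ 2 := by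
  have h := cs_le (Δ := chain n) (s := 200 * (n + 1)) (fun g hg => (W_chain (c := 0) le_rfl g hg).le)
  rw [len_chain] at h
  nlinarith

section rules

variable {G Δ : List Fml} {c s l : ℕ}

/-- equal numbers have equal successors -/
theorem replSucc (hl : Δ.length ≤ l) (hΔ : ∀ g ∈ Δ, W c s g) {x y z : ℕ}
    (hs : 3 * (x + y + z) + 200 ≤ s) (h1 : Fm.eq x y ∈ Δ) (h2 : Fm.succ x z ∈ Δ) :
    ND WB c s l G 5 Δ (.succ y z) := by
  have h0 : ND WB c s l G 1 Δ ((Fm.eq x y).imp ((Fm.succ x z).imp (Fm.succ y z))) := by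
    refine .thm hl hΔ ⟨(bb_eq _ _ _).imp ((bb_succ _ _ _).imp (bb_succ _ _ _)), ?_⟩
      (.inr (.inr (.repl x y _ _ ?_)))
    · simp only [sz_imp, sz_eq, sz_succ]
      omega
    · exact .succ (.inr ⟨rfl, rfl⟩) (.inl rfl)
  exact ((h0.mp (.hyp hl hΔ h1)).mp (.hyp hl hΔ h2)).up (by omega)

/-- equal numbers have equal successors, with a derived equation -/
theorem replSucc' {N : ℕ} (hl : Δ.length ≤ l) (hΔ : ∀ g ∈ Δ, W c s g) {x y z : ℕ}
    (hs : 3 * (x + y + z) + 200 ≤ s) (h1 : ND WB c s l G N Δ (Fm.eq x y)) (h2 : Fm.succ x z ∈ Δ) :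
    ND WB c s l G (N + 4) Δ (.succ y z) := by
  have h0 : ND WB c s l G 1 Δ ((Fm.eq x y).imp ((Fm.succ x z).imp (Fm.succ y z))) := by
    refine .thm hl hΔ ⟨(bb_eq _ _ _).imp ((bb_succ _ _ _).imp (bb_succ _ _ _)), ?_⟩
      (.inr (.inr (.repl x y _ _ ?_)))
    · simp only [sz_imp, sz_eq, sz_succ]
      omega
    · exact .succ (.inr ⟨rfl, rfl⟩) (.inl rfl)
  exact ((h0.mp h1).mp (.hyp hl hΔ h2)).up (by omega)

/-- the next number -/
theorem nextNum {n i b N : ℕ} (hc : 2 ≤ c) (hs : 1000 * (n + 1) ≤ s) (hl : Δ.length ≤ l)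
    (hΔ : ∀ g ∈ Δ, W c s g) (hch : ∀ g ∈ chain n, g ∈ Δ) (hi : i < n) (hb : b = 1 ∨ b = 3)
    (h : ND WB c s l G N Δ (Fm.succ (dn i) b)) :
    ND WB c s l G (N + 7) Δ (Fm.eq b (dn (i + 1))) := by
  have h1 := succUnique (G := G) (Δ := Δ) (c := c) (s := s) (l := l) (a := dn i) (b := b)
    (d := dn (i + 1)) hc hl hΔ (by simp only [dn]; omega) (by omega) (by simp only [dn]; omega)
  exact ((h1.mp h).mp (.hyp hl hΔ (hch _ (succ_mem_chain hi)))).up (by omega)

/-- the available formula -/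
theorem useA {n t N : ℕ} {R : Fml} (hl : Δ.length ≤ l) (hΔ : ∀ g ∈ Δ, W c s g)
    (hch : ∀ g ∈ chain n, g ∈ Δ) (hW : W c s (imps (chain n ++ [.eq 3 (dn t)]) R))
    (hA : imps (chain n ++ [.eq 3 (dn t)]) R ∈ G) (hN : 1 ≤ N)
    (h : ND WB c s l G N Δ (Fm.eq 3 (dn t))) :
    ND WB c s l G (1 + (n + 2) * (N + 1)) Δ R := by
  have h0 : ND WB c s l G 1 Δ (imps (chain n ++ [.eq 3 (dn t)]) R) := .thm hl hΔ hW (.inl hA)
  have h1 := ND_mps (M := N) h0 (by
    intro g hg
    rcases List.mem_append.1 hg with hg | hg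
    · exact (ND.hyp hl hΔ (hch g hg)).up hN
    · rw [List.mem_singleton] at hg
      rw [hg]
      exact h)
  rw [List.length_append, len_chain, List.length_singleton] at h1
  exact h1.up (by
    have : (n + 1 + 1) * (N + 1) = (n + 2) * (N + 1) := by ring
    omega)

end rules

/-- the part of the numeral after the doubling -/
def Tb (b : Bool) (R : Fml) : Fml :=
  if b then .all 1 (.imp (.succ 0 1) (.all 3 (.imp (.succ 1 3) R))) else .all 3 (.imp (.succ 0 3) R)

theorem digit_Tb (b : Bool) (R : Fml) : digitD 3 b R = .all 0 (.imp (.add 3 3 0) (Tb b R)) := by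
  cases b <;> rfl

/-- after the doubling -/
theorem afterDouble {G : List Fml} {R : Fml} {c s l n v : ℕ} (b : Bool) (hc : 2 ≤ c)
    (hs : 1000 * (n + 1) ≤ s) (hl : n + 10 ≤ l) (hv : (2 * v + if b then 2 else 1) ≤ n)
    (hW : W c s (imps (chain n ++ [.eq 3 (dn (2 * v + if b then 2 else 1))]) R))
    (hA : imps (chain n ++ [.eq 3 (dn (2 * v + if b then 2 else 1))]) R ∈ G)
    (hcx : Pool.Agent.TH636.BC.Cx false (c - 1) R) (hsR : sz R + 200 * (n + 1) ≤ s) :
    ND WB c s l G (60 * (n + 2)) (chain n) (.imp (.eq 0 (dn (2 * v))) (Tb b R)) := by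
  have hdn : ∀ i, dn i = 42 + 6 * i := fun i => rfl
  obtain ⟨c', rfl⟩ : ∃ c', c = c' + 2 := ⟨c - 2, by omega⟩
  have hcx' : Pool.Agent.TH636.BC.Cx false (c' + 1) R := hcx
  have hWc := W_chain (n := n) (c := c' + 2) (s := s) (by omega)
  have hWe : W (c' + 2) s (Fm.eq 0 (dn (2 * v)) : Fml) := by
    refine ⟨bb_eq _ _ _, ?_⟩
    rw [sz_eq, hdn]
    split_ifs at hv <;> omega
  cases b
  · -- the digit one
    simp only [Bool.false_eq_true, if_false] at hv hW hA
    show ND WB _ s l G _ (chain n) (.imp (.eq 0 (dn (2 * v))) (.all 3 (.imp (.succ 0 3) R)))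
    obtain ⟨Δ, hΔ⟩ : ∃ Δ, Δ = (chain n ++ [Fm.eq 0 (dn (2 * v))]) ++ [Fm.succ 0 3] := ⟨_, rfl⟩
    have hΔl : Δ.length ≤ l := by
      rw [hΔ]
      simp only [List.length_append, len_chain, List.length_singleton]
      omega
    have hΔW : ∀ g ∈ Δ, W (c' + 2) s g := by
      intro g hg
      rw [hΔ, List.mem_append, List.mem_append, List.mem_singleton, List.mem_singleton] at hg
      rcases hg with (hg | rfl) | rfl
      · exact hWc g hg
      · exact hWe
      · exact ⟨bb_succ _ _ _, by rw [sz_succ]; omega⟩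
    have hch : ∀ g ∈ chain n, g ∈ Δ := by
      intro g hg
      rw [hΔ, List.mem_append, List.mem_append]
      exact .inl (.inl hg)
    have h1 := replSucc (G := G) hΔl hΔW (x := 0) (y := dn (2 * v)) (z := 3)
      (by rw [hdn]; omega) (by rw [hΔ]; simp) (by rw [hΔ]; simp)
    have h2 := nextNum (n := n) (i := 2 * v) (by omega) hs hΔl hΔW hch (by omega) (.inr rfl) h1
    have h3 := useA (n := n) (t := 2 * v + 1) hΔl hΔW hch hW hA (by omega) h2
    rw [hΔ] at h3
    have h4 := h3.impI ⟨fun _ => .lift (.imp (.succ _ _ _ _) hcx'), by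
      rw [sz_imp, sz_succ]
      omega⟩
    have h5 := h4.allI (x := 3) (by
      intro g hg hfree
      rw [List.mem_append, List.mem_singleton] at hg
      rcases hg with hg | rfl
      · have := free_chain hg hfree
        omega
      · rcases hfree with h | h
        · omega
        · rw [hdn] at h
          omega) ⟨fun _ => .lift (.all (.imp (.succ _ _ _ _) hcx')), by
      rw [sz_all, sz_imp, sz_succ]
      omega⟩
    have h6 := h5.impI ⟨fun _ => .lift (.imp (.eq _ _ _ _) (.all (.imp (.succ _ _ _ _) hcx'))), by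
      rw [sz_imp, sz_eq, sz_all, sz_imp, sz_succ, hdn]
      omega⟩
    exact h6.up (by omega)
  · -- the digit two
    simp only [if_true] at hv hW hA
    show ND WB _ s l G _ (chain n) (.imp (.eq 0 (dn (2 * v)))
      (.all 1 (.imp (.succ 0 1) (.all 3 (.imp (.succ 1 3) R)))))
    obtain ⟨Δ, hΔ⟩ : ∃ Δ, Δ = ((chain n ++ [Fm.eq 0 (dn (2 * v))]) ++ [Fm.succ 0 1]) ++
      [Fm.succ 1 3] := ⟨_, rfl⟩
    have hΔl : Δ.length ≤ l := by
      rw [hΔ]
      simp only [List.length_append, len_chain, List.length_singleton]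
      omega
    have hΔW : ∀ g ∈ Δ, W (c' + 2) s g := by
      intro g hg
      rw [hΔ] at hg
      simp only [List.mem_append, List.mem_singleton] at hg
      rcases hg with ((hg | rfl) | rfl) | rfl
      · exact hWc g hg
      · exact hWe
      · exact ⟨bb_succ _ _ _, by rw [sz_succ]; omega⟩
      · exact ⟨bb_succ _ _ _, by rw [sz_succ]; omega⟩
    have hch : ∀ g ∈ chain n, g ∈ Δ := by
      intro g hg
      rw [hΔ]
      simp only [List.mem_append]
      exact .inl (.inl (.inl hg))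
    have h1 := replSucc (G := G) hΔl hΔW (x := 0) (y := dn (2 * v)) (z := 1)
      (by rw [hdn]; omega) (by rw [hΔ]; simp) (by rw [hΔ]; simp)
    have h2 := nextNum (n := n) (i := 2 * v) (by omega) hs hΔl hΔW hch (by omega) (.inl rfl) h1
    have h2' := replSucc' (G := G) hΔl hΔW (x := 1) (y := dn (2 * v + 1)) (z := 3)
      (by rw [hdn]; omega) h2 (by rw [hΔ]; simp)
    have h2'' := nextNum (n := n) (i := 2 * v + 1) (by omega) hs hΔl hΔW hch (by omega) (.inr rfl) h2'
    have h3 := useA (n := n) (t := 2 * v + 2) hΔl hΔW hch hW hA (by omega) h2''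
    rw [hΔ] at h3
    have h4 := h3.impI ⟨fun _ => .lift (.imp (.succ _ _ _ _) hcx'), by
      rw [sz_imp, sz_succ]
      omega⟩
    have h5 := h4.allI (x := 3) (by
      intro g hg hfree
      simp only [List.mem_append, List.mem_singleton] at hg
      rcases hg with (hg | rfl) | rfl
      · have := free_chain hg hfree
        omega
      · rcases hfree with h | h
        · omega
        · rw [hdn] at h
          omega
      · rcases hfree with h | h <;> omega) ⟨fun _ => .lift (.all (.imp (.succ _ _ _ _) hcx')), by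
      rw [sz_all, sz_imp, sz_succ]
      omega⟩
    have h6 := h5.impI ⟨fun _ => .lift (.imp (.succ _ _ _ _) (.all (.imp (.succ _ _ _ _) hcx'))), by
      rw [sz_imp, sz_succ, sz_all, sz_imp, sz_succ]
      omega⟩
    have h7 := h6.allI (x := 1) (by
      intro g hg hfree
      simp only [List.mem_append, List.mem_singleton] at hg
      rcases hg with hg | rfl
      · have := free_chain hg hfree
        omega
      · rcases hfree with h | h
        · omega
        · rw [hdn] at h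
          omega) ⟨fun _ => .lift (.all (.imp (.succ _ _ _ _) (.all (.imp (.succ _ _ _ _) hcx')))), by
      rw [sz_all, sz_imp, sz_succ, sz_all, sz_imp, sz_succ]
      omega⟩
    have h8 := h7.impI ⟨fun _ => .lift (.imp (.eq _ _ _ _) (.all (.imp (.succ _ _ _ _)
        (.all (.imp (.succ _ _ _ _) hcx'))))), by
      rw [sz_imp, sz_eq, sz_all, sz_imp, sz_succ, sz_all, sz_imp, sz_succ, hdn]
      omega⟩
    exact h8.up (by omega)

theorem cx_Tb {R : Fml} {k : ℕ} (b : Bool) (h : Pool.Agent.TH636.BC.Cx false (k + 1) R) :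
    Pool.Agent.TH636.BC.Cx false (k + 1) (Tb b R) := by
  cases b
  · exact .all (.imp (.succ _ _ _ _) h)
  · exact .all (.imp (.succ _ _ _ _) (.all (.imp (.succ _ _ _ _) h)))

theorem sz_Tb (R : Fml) (b : Bool) : sz (Tb b R) ≤ sz R + 50 := by
  cases b
  · show sz (.all 3 (.imp (.succ 0 3) R)) ≤ _
    simp only [sz_all, sz_imp, sz_succ]
    omega
  · show sz (.all 1 (.imp (.succ 0 1) (.all 3 (.imp (.succ 1 3) R)))) ≤ _
    simp only [sz_all, sz_imp, sz_succ]
    omega

/-- **Module G3.** -/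
theorem g3' : G3T := by
  intro Y c hY hc hB
  refine ⟨2000 + sz Y, fun C hC n v b w hw hv G hA => ?_⟩
  obtain ⟨s, hs⟩ : ∃ s, s = C * (n + 1) ^ 3 := ⟨_, rfl⟩
  obtain ⟨l, hl⟩ : ∃ l, l = C * (n + 1) := ⟨_, rfl⟩
  rw [← hs, ← hl]
  have hn : 1 ≤ n + 1 := by omega
  have hsq : n + 1 ≤ (n + 1) ^ 2 := by nlinarith
  have hcu : (n + 1) ^ 2 ≤ (n + 1) ^ 3 := Nat.pow_le_pow_right hn (by norm_num)
  have hs1 : (2000 + sz Y) * (n + 1) ^ 2 ≤ s := by
    rw [hs]
    exact Nat.mul_le_mul hC hcu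
  have hs2 : 2000 * (n + 1) ^ 2 + sz Y ≤ s := by
    have h1 : (2000 + sz Y) * (n + 1) ^ 2 = 2000 * (n + 1) ^ 2 + sz Y * (n + 1) ^ 2 := by ring
    have h2 : sz Y * 1 ≤ sz Y * (n + 1) ^ 2 := Nat.mul_le_mul_left _ (by omega)
    omega
  have hl1 : 2000 * (n + 1) ≤ l := by
    rw [hl]
    exact Nat.mul_le_mul_right _ (by omega)
  have hdn : ∀ i, dn i = 42 + 6 * i := fun i => rfl
  obtain ⟨R, hR⟩ : ∃ R, R = w.foldr (digitD 3) Y := ⟨_, rfl⟩
  rw [List.foldr_cons, ← hR, digit_Tb]
  rw [← hR] at hA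
  have hcxR : Pool.Agent.TH636.BC.Cx false (c + 1) R := by rw [hR]; exact cx_fold hB w
  have hszR : sz R ≤ sz Y + 61 * n := by
    rw [hR]
    refine (sz_fold Y w).trans ?_
    have := Nat.mul_le_mul_left 61 hw
    omega
  have hcsch := cs_chain n
  have hcxR4 : Pool.Agent.TH636.BC.Cx false (c + 4 - 1) R := by
    show Pool.Agent.TH636.BC.Cx false (c + 3) R
    exact Pool.Agent.TH636.BC.Cx.lift (s := false) (Pool.Agent.TH636.BC.Cx.lift (s := false) (s' := false) hcxR)
  have hbR : BB (c + 4) R := fun _ => .lift hcxR4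
  have hWA : W (c + 4) s (imps (chain n ++ [.eq 3 (dn (2 * v + if b then 2 else 1))]) R) := by
    refine ⟨BB.imps ?_ hbR, ?_⟩
    · intro g hg
      rw [List.mem_append, List.mem_singleton] at hg
      rcases hg with hg | rfl
      · exact (W_chain (n := n) (c := c + 4) (s := s) (by omega) g hg).bb
      · exact bb_eq _ _ _
    · rw [sz_imps, cs_append, cs_cons, cs_nil, sz_eq, hdn]
      omega
  have h1 := afterDouble (G := G) (l := l) b (c := c + 4) (by omega) (by omega) (by omega) hv hWA hA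
    hcxR4 (by omega)
  -- the context with `3 = d_v` and `3 + 3 = 0`
  obtain ⟨Δ, hΔ⟩ : ∃ Δ, Δ = (chain n ++ [Fm.eq 3 (dn v)]) ++ [Fm.add 3 3 0] := ⟨_, rfl⟩
  have hvn : 2 * v ≤ n := by split_ifs at hv <;> omega
  have hΔl : Δ.length ≤ l := by
    rw [hΔ]
    simp only [List.length_append, len_chain, List.length_singleton]
    omega
  have hΔW : ∀ g ∈ Δ, W (c + 4) s g := by
    intro g hg
    rw [hΔ] at hg
    simp only [List.mem_append, List.mem_singleton] at hg
    rcases hg with (hg | rfl) | rfl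
    · exact W_chain (n := n) (by omega) g hg
    · refine ⟨bb_eq _ _ _, ?_⟩
      rw [sz_eq, hdn]
      omega
    · refine ⟨bb_add _ _ _ _, ?_⟩
      rw [sz_add]
      omega
  have hch : ∀ g ∈ chain n, g ∈ Δ := by
    intro g hg
    rw [hΔ]
    simp only [List.mem_append]
    exact .inl (.inl hg)
  have h2 := h1.sub (Δ' := Δ) hch hΔl hΔW
  -- the sum
  have a0 : ND WB (c + 4) s l G 1 Δ ((Fm.eq 3 (dn v)).imp ((Fm.add 3 3 0).imp
      (Fm.add (dn v) (dn v) 0))) := by
    refine .thm hΔl hΔW ⟨(bb_eq _ _ _).imp ((bb_add _ _ _ _).imp (bb_add _ _ _ _)), ?_⟩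
      (.inr (.inr (.repl 3 (dn v) _ _ ?_)))
    · simp only [sz_imp, sz_eq, sz_add, hdn]
      omega
    · exact .add (.inr ⟨rfl, rfl⟩) (.inr ⟨rfl, rfl⟩) (.inl rfl)
  have a1 := (a0.mp (.hyp hΔl hΔW (by rw [hΔ]; simp))).mp (.hyp hΔl hΔW (by rw [hΔ]; simp))
  have a2 := sums (G := G) (v := v) (by omega) (by omega) hΔl hΔW hch v (by omega)
  rw [← two_mul] at a2
  have a3 := addUnique (G := G) (a := dn v) (b := dn v) (d := 0) (e := dn (2 * v)) (by omega) hΔl hΔW
    (by rw [hdn]; omega) (by rw [hdn]; omega) (by omega) (by simp only [hdn]; omega)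
  have a4 := (a3.mp a1).mp a2
  have h3 := h2.mp a4
  rw [hΔ] at h3
  have hcT : Pool.Agent.TH636.BC.Cx false (c + 3) (Tb b R) := cx_Tb (k := c + 2) b hcxR4
  have hsT := sz_Tb R b
  have h4 := h3.impI ⟨fun _ => .lift (.imp (.add _ _ _ _ _) hcT), by
    rw [sz_imp, sz_add]
    omega⟩
  have h5 := h4.allI (x := 0) (by
    intro g hg hfree
    rw [List.mem_append, List.mem_singleton] at hg
    rcases hg with hg | rfl
    · have := free_chain hg hfree
      omega
    · rcases hfree with h | h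
      · omega
      · rw [hdn] at h
        omega) ⟨fun _ => .lift (.all (k := c + 2) (.imp (.add _ _ _ _ _) hcT)), by
    rw [sz_all, sz_imp, sz_add]
    omega⟩
  have h6 := ND_impIs (Δ := []) (L := chain n ++ [Fm.eq 3 (dn v)]) h5 ⟨BB.imps (by
      intro g hg
      rw [List.mem_append, List.mem_singleton] at hg
      rcases hg with hg | rfl
      · exact (W_chain (n := n) (c := c + 4) (s := s) (by omega) g hg).bb
      · exact bb_eq _ _ _) (fun _ => .lift (.all (k := c + 2) (.imp (.add _ _ _ _ _) hcT))), by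
    rw [sz_imps, cs_append, cs_cons, cs_nil, sz_eq, sz_all, sz_imp, sz_add, hdn]
    omega⟩
  refine h6.up ?_
  rw [List.length_append, len_chain, List.length_singleton]
  omega

theorem g3 (_ : G1T) : G3T := g3'

end Pool.Agent.J6H92.BC
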