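import Pool.Agent.J6H49.BC.Stm2
import Pool.Agent.TH197.J1545b

/-!
# Helper rules for bounded natural deduction
-/

set_option autoImplicit false

namespace Pool.Agent.J6H92.BC

open Pool.Agent.TH672 (Fm LogK ReplK Sw)
open Pool.Agent.TH636.BC (Fml blk inst lt col robinson TE)
open Pool.Agent.J6H49.BC

/-! ### small formulas -/

theorem W_mono {c c' s s' : ℕ} {φ : Fml} (h : W c s φ) (hc : c ≤ c') (hs : s ≤ s') : W c' s' φ :=
  ⟨h.bb.mono hc, h.le.trans hs⟩

theorem W_right {c s : ℕ} {φ ψ : Fml} (h : W c s (φ.imp ψ)) : W c s ψ :=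
  ⟨h.bb.inv.2, by have := h.le; rw [sz_imp] at this; omega⟩

theorem W_left {c s : ℕ} {φ ψ : Fml} (h : W c s (φ.imp ψ)) : W c s φ :=
  ⟨h.bb.inv.1, by have := h.le; rw [sz_imp] at this; omega⟩

theorem W_mem {c s : ℕ} {L : List Fml} {φ : Fml} (h : W c s (imps L φ)) : ∀ g ∈ L, W c s g := by
  induction L with
  | nil => exact fun _ h => absurd h List.not_mem_nil
  | cons g L ih =>
    intro g' hg'
    rw [imps_cons] at h
    rcases List.mem_cons.1 hg' with rfl | hg'
    · exact W_left h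
    · exact ih (W_right h) g' hg'

theorem W_imps_right {c s : ℕ} {L : List Fml} {φ : Fml} (h : W c s (imps L φ)) : W c s φ := by
  induction L with
  | nil => exact h
  | cons g L ih => exact ih (W_right h)

/-! ### variables and iterated implications -/

theorem free_imps {L : List Fml} {φ : Fml} {x : ℕ} :
    (imps L φ).Free x ↔ (∃ g ∈ L, g.Free x) ∨ φ.Free x := by
  induction L with
  | nil => simp
  | cons g L ih =>
    rw [imps_cons]
    show (g.Free x ∨ (imps L φ).Free x) ↔ _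
    rw [ih]
    simp only [List.mem_cons, exists_eq_or_imp, or_assoc]

theorem freeFor_imps {L : List Fml} {φ : Fml} {x y : ℕ} (h : ∀ g ∈ L, g.FreeFor y x)
    (h' : φ.FreeFor y x) : (imps L φ).FreeFor y x := by
  induction L with
  | nil => exact h'
  | cons g L ih =>
    exact ⟨h g List.mem_cons_self, ih fun g' hg' => h g' (List.mem_cons_of_mem _ hg')⟩

theorem subst_imps {L : List Fml} {φ : Fml} {x y : ℕ} :
    (imps L φ).subst x y = imps (L.map fun g => g.subst x y) (φ.subst x y) := by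
  induction L with
  | nil => rfl
  | cons g L ih =>
    rw [imps_cons, List.map_cons, imps_cons, ← ih]
    rfl

theorem ren_self (x u : ℕ) : Pool.Agent.TH672.Form.ren x x u = u := by
  unfold Pool.Agent.TH672.Form.ren
  split_ifs with h
  · exact h.symm
  · rfl

theorem subst_self (x : ℕ) (φ : Fml) : φ.subst x x = φ := by
  induction φ with
  | bot => rfl
  | eq u v => simp [Fm.subst, ren_self]
  | zero u => simp [Fm.subst, ren_self]
  | succ u v => simp [Fm.subst, ren_self]
  | add u v w => simp [Fm.subst, ren_self]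
  | mul u v w => simp [Fm.subst, ren_self]
  | op i a b c d => simp [Fm.subst, ren_self]
  | imp φ ψ ih1 ih2 => simp only [Fm.subst, ih1, ih2]
  | all u φ ih => simp only [Fm.subst, ih, ite_self]

theorem freeFor_of_not_free {x y : ℕ} : ∀ {φ : Fml}, ¬ φ.Free x → φ.FreeFor y x
  | .bot, _ => trivial
  | .eq _ _, _ => trivial
  | .zero _, _ => trivial
  | .succ _ _, _ => trivial
  | .add _ _ _, _ => trivial
  | .mul _ _ _, _ => trivial
  | .op _ _ _ _ _, _ => trivial
  | .imp _ _, h => ⟨freeFor_of_not_free fun h' => h (.inl h'), freeFor_of_not_free fun h' => h (.inr h')⟩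
  | .all u φ, h => by
    by_cases hu : u = x
    · exact .inl hu
    · exact .inr (.inl fun h' => h ⟨fun e => hu e.symm, h'⟩)

/-! ### rules -/

variable {Γ G : List Fml} {c s l : ℕ}

theorem ND_wfs {N : ℕ} {Δ : List Fml} {φ : Fml} (h : ND Γ c s l G N Δ φ) :
    Δ.length ≤ l ∧ (∀ g ∈ Δ, W c s g) ∧ W c s φ := by
  induction h with
  | hyp h1 h2 h3 => exact ⟨h1, h2, h2 _ h3⟩
  | thm h1 h2 h3 _ => exact ⟨h1, h2, h3⟩
  | mp _ _ ih1 _ => exact ⟨ih1.1, ih1.2.1, W_right ih1.2.2⟩
  | impI _ h ih =>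
    refine ⟨?_, fun g hg => ih.2.1 g (by simp [hg]), h⟩
    have := ih.1
    rw [List.length_append, List.length_singleton] at this
    omega
  | allI _ _ h ih => exact ⟨ih.1, ih.2.1, h⟩
  | allE y _ _ h ih => exact ⟨ih.1, ih.2.1, h⟩
  | dn _ ih => exact ⟨ih.1, ih.2.1, W_left (W_left ih.2.2)⟩
  | sub _ _ h1 h2 ih => exact ⟨h1, h2, ih.2.2⟩
  | up _ _ ih => exact ih

theorem ND_ctx {N : ℕ} {Δ : List Fml} {φ ψ : Fml} (h : ND Γ c s l G N Δ φ) (hψ : ψ ∈ Δ) :
    ND Γ c s l G 1 Δ ψ := .hyp (ND_wfs h).1 (ND_wfs h).2.1 hψ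

/-- many implications introduced -/
theorem ND_impIs {N : ℕ} {φ : Fml} : ∀ {L Δ : List Fml}, ND Γ c s l G N (Δ ++ L) φ →
    W c s (imps L φ) → ND Γ c s l G (N + L.length) Δ (imps L φ)
  | [], Δ, h, _ => by simpa using h
  | g :: L, Δ, h, hW => by
    rw [imps_cons] at hW ⊢
    have h1 : ND Γ c s l G N ((Δ ++ [g]) ++ L) φ := by
      rw [List.append_assoc]
      exact h
    have h2 := ND_impIs h1 (W_right hW)
    exact (h2.impI hW).up (by rw [List.length_cons]; omega)

/-- many premises -/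
theorem ND_mps {M : ℕ} {φ : Fml} {Δ : List Fml} : ∀ {L : List Fml} {N : ℕ},
    ND Γ c s l G N Δ (imps L φ) → (∀ g ∈ L, ND Γ c s l G M Δ g) →
      ND Γ c s l G (N + L.length * (M + 1)) Δ φ
  | [], _, h, _ => by simpa using h
  | g :: L, N, h, hL => by
    rw [imps_cons] at h
    have h1 := h.mp (hL g List.mem_cons_self)
    have h2 := ND_mps h1 fun g' hg' => hL g' (List.mem_cons_of_mem _ hg')
    refine h2.up ?_
    rw [List.length_cons, Nat.succ_mul]
    omega

end Pool.Agent.J6H92.BC
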