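import Pool.Agent.J6H92.BC.D2a
import Pool.Agent.J6H49.BC.D2bS

/-!
# The step of the induction: the contradiction
-/

set_option autoImplicit false

namespace Pool.Agent.J6H92.BC

open Pool.Agent.TH672 (Fm LogK ReplK Sw)
open Pool.Agent.TH636.BC (Fml blk inst lt col robinson TE)
open Pool.Agent.J6H49.BC

/-! ### conjunctions -/

section conj

variable {Γ G Δ : List Fml} {c s l N : ℕ} {φ ψ : Fml}

theorem sz_and (φ ψ : Fml) : sz (φ.and ψ) = sz φ + sz ψ + 20 := by
  unfold Fm.and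
  rw [sz_neg, sz_imp, sz_neg]
  omega

theorem sz_ex (x : ℕ) (φ : Fml) : sz (Fm.ex x φ) = sz φ + x + 21 := by
  unfold Fm.ex
  rw [sz_neg, sz_all, sz_neg]
  omega

theorem bb_and {c : ℕ} {φ ψ : Fml} (h : BB c φ) (h' : BB c ψ) : BB c (φ.and ψ) :=
  bb_neg (h.imp (bb_neg h'))

theorem bb_ex {c : ℕ} {φ : Fml} (h : BB c φ) (x : ℕ) : BB (c + 2) (Fm.ex x φ) :=
  bb_neg ((bb_neg h).all x)

theorem W_ctx1 {L : List Fml} {g : Fml} (h : ∀ g ∈ L, W c s g) (hg : W c s g) :
    ∀ g' ∈ L ++ [g], W c s g' := by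
  intro g' hg'
  rcases List.mem_append.1 hg' with hg' | hg'
  · exact h g' hg'
  · rw [List.mem_singleton] at hg'
    rw [hg']
    exact hg

/-- the left part of a conjunction -/
theorem ND_andL (h : ND Γ c s l G N Δ (φ.and ψ)) (hl : Δ.length + 3 ≤ l) :
    ND Γ c s l G (N + 9) Δ φ := by
  obtain ⟨-, hΔ, hW⟩ := ND_wfs h
  have h1 : BB c φ := (W_left (W_left hW)).bb
  have h2 : BB c ψ := (W_left (W_right (W_left hW))).bb
  have h3 := hW.le
  rw [sz_and] at h3
  have h4 := sz_pos ψ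
  have w1 : W c s φ := ⟨h1, by omega⟩
  have w2 : W c s ψ := ⟨h2, by omega⟩
  have w3 : W c s φ.neg := ⟨bb_neg h1, by rw [sz_neg]; omega⟩
  have w4 : W c s ψ.neg := ⟨bb_neg h2, by rw [sz_neg]; have := sz_pos φ; omega⟩
  have w5 : W c s (φ.imp ψ.neg) := ⟨h1.imp (bb_neg h2), by rw [sz_imp, sz_neg]; omega⟩
  have w6 : W c s φ.neg.neg := ⟨bb_neg (bb_neg h1), by rw [sz_neg, sz_neg]; omega⟩
  have hΔ1 := W_ctx1 hΔ w3
  have hΔ2 := W_ctx1 hΔ1 w1
  have hΔ3 := W_ctx1 hΔ2 w2
  have hl3 : (((Δ ++ [φ.neg]) ++ [φ]) ++ [ψ]).length ≤ l := by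
    simp only [List.length_append, List.length_singleton]
    omega
  have hl1 : (Δ ++ [φ.neg]).length ≤ l := by
    simp only [List.length_append, List.length_singleton]
    omega
  have a1 : ND Γ c s l G 1 (((Δ ++ [φ.neg]) ++ [φ]) ++ [ψ]) φ.neg := .hyp hl3 hΔ3 (by simp)
  have a2 : ND Γ c s l G 1 (((Δ ++ [φ.neg]) ++ [φ]) ++ [ψ]) φ := .hyp hl3 hΔ3 (by simp)
  have a3 := ((a1.mp a2).impI w4).impI w5
  have a4 : ND Γ c s l G (N + 1) (Δ ++ [φ.neg]) (φ.imp ψ.neg).neg :=
    h.sub (fun g hg => List.mem_append_left _ hg) hl1 hΔ1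
  have a5 := (a4.mp a3).impI w6
  exact a5.dn.up (by omega)

/-- the right part of a conjunction -/
theorem ND_andR (h : ND Γ c s l G N Δ (φ.and ψ)) (hl : Δ.length + 3 ≤ l) :
    ND Γ c s l G (N + 9) Δ ψ := by
  obtain ⟨-, hΔ, hW⟩ := ND_wfs h
  have h1 : BB c φ := (W_left (W_left hW)).bb
  have h2 : BB c ψ := (W_left (W_right (W_left hW))).bb
  have h3 := hW.le
  rw [sz_and] at h3
  have h4 := sz_pos φ
  have w1 : W c s φ := ⟨h1, by omega⟩
  have w3 : W c s ψ.neg := ⟨bb_neg h2, by rw [sz_neg]; omega⟩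
  have w5 : W c s (φ.imp ψ.neg) := ⟨h1.imp (bb_neg h2), by rw [sz_imp, sz_neg]; omega⟩
  have w6 : W c s ψ.neg.neg := ⟨bb_neg (bb_neg h2), by rw [sz_neg, sz_neg]; omega⟩
  have hΔ1 := W_ctx1 hΔ w3
  have hΔ2 := W_ctx1 hΔ1 w1
  have hl2 : ((Δ ++ [ψ.neg]) ++ [φ]).length ≤ l := by
    simp only [List.length_append, List.length_singleton]
    omega
  have hl1 : (Δ ++ [ψ.neg]).length ≤ l := by
    simp only [List.length_append, List.length_singleton]
    omega
  have a1 : ND Γ c s l G 1 ((Δ ++ [ψ.neg]) ++ [φ]) ψ.neg := .hyp hl2 hΔ2 (by simp)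
  have a3 := a1.impI w5
  have a4 : ND Γ c s l G (N + 1) (Δ ++ [ψ.neg]) (φ.imp ψ.neg).neg :=
    h.sub (fun g hg => List.mem_append_left _ hg) hl1 hΔ1
  have a5 := (a4.mp a3).impI w6
  exact a5.dn.up (by omega)

end conj

/-! ### the context -/

theorem mem_G3 {k r i : ℕ} {g : Fml} :
    g ∈ G3 k r i ↔ g ∈ G2 k r ∨ g = MC k ∨ ∃ j < i, g = EJ k j ∨ g = MJ j := by
  unfold G3
  simp only [List.mem_append, List.mem_singleton, List.mem_flatMap, List.mem_range, List.mem_cons,
    List.not_mem_nil, or_false, or_assoc]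

theorem len_G3 (k r i : ℕ) : (G3 k r i).length = k + 4 + 2 * i := by
  unfold G3
  rw [List.length_append, List.length_append, len_G2, List.length_singleton]
  have h : ((List.range i).flatMap fun j => [EJ k j, MJ j]).length = 2 * i := by
    induction i with
    | zero => rfl
    | succ i ih =>
      rw [List.range_succ, List.flatMap_append, List.length_append, ih]
      simp only [List.flatMap_cons, List.flatMap_nil, List.append_nil, List.length_cons,
        List.length_nil]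
      omega
  rw [h]

/-- the context is small and its formulas do not contain the variables below `39` -/
theorem G3_W {k r n s : ℕ} (hk : k + r ≤ n) (hs : 1000 * (n + 1) ^ 2 ≤ s) : ∀ g ∈ G3 k r r,
    W 9 s g ∧ ∀ x, x < 39 → ¬ g.Free x := by
  have h1 : 1 ≤ n + 1 := by omega
  have hsq : n + 1 ≤ (n + 1) ^ 2 := by nlinarith
  intro g hg
  rw [mem_G3] at hg
  rcases hg with hg | rfl | ⟨j, hj, rfl | rfl⟩
  · exact G2_W hk hs g hg
  · refine ⟨⟨?_, ?_⟩, ?_⟩
    · exact (((bb_hi 2 _ _).imp (bb_ex (bb_col 0 _ _ _) 23)).all 21).mono (by omega)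
    · unfold MC
      rw [sz_all, sz_imp, sz_ex, sz_hi, sz_col]
      simp only [gn, pn]
      omega
    · intro x hx hfree
      obtain ⟨h21, (h | h | h | h) | ⟨h23, (h | h | h | h) | h⟩ | h⟩ : x ≠ 21 ∧
        ((x = gn 0 ∨ x = 21 ∨ x = 21 ∨ x = 21) ∨ ((x ≠ 23 ∧ ((x = pn k ∨ x = 21 ∨ x = 23 ∨ x = 23) ∨
          False)) ∨ False)) := hfree
      all_goals try simp only [gn, pn] at h
      all_goals omega
  · have hPJ := PJ_bd (n := n) hk hj
    refine ⟨⟨?_, ?_⟩, ?_⟩
    · exact (((bb_hi 0 _ _).imp (BB.imps (bb_cols 0 _ _) (bb_bot 0))).all 17).mono (by omega)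
    · have h2 := cs_cols (v := 17) (fun x hx => (hPJ x hx).1) (by omega)
      rw [len_PJ] at h2
      have h3 : (k + 1) * (4 * (42 * (n + 1)) + 16) ≤ (n + 1) * (4 * (42 * (n + 1)) + 16) :=
        Nat.mul_le_mul_right _ (by omega)
      unfold EJ
      simp only [sz_all, sz_imps, sz_imp, sz_hi, sz_bot, bn]
      nlinarith
    · intro x hx hfree
      obtain ⟨h17, h⟩ : x ≠ 17 ∧ ((x = bn j ∨ x = 17 ∨ x = 17 ∨ x = 17) ∨
        (imps (cols (PJ k j) 17) .bot).Free x) := hfree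
      rcases h with h | h
      · simp only [bn] at h
        omega
      · rw [free_imps] at h
        rcases h with ⟨g, hg, hgx⟩ | h
        · rcases free_cols hg hgx with ⟨p, hp, h⟩ | h
          · have := (hPJ p hp).2
            omega
          · omega
        · exact h
  · refine ⟨⟨?_, ?_⟩, ?_⟩
    · exact (((bb_hi 0 _ _).imp (bb_and (bb_hi 0 _ _) (bb_hi 0 _ _))).all 21).mono (by omega)
    · unfold MJ
      rw [sz_all, sz_imp, sz_and, sz_hi, sz_hi, sz_hi]
      simp only [gn, bn]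
      omega
    · intro x hx hfree
      obtain ⟨h21, (h | h | h | h) | ((h | h | h | h) | (h | h | h | h) | h) | h⟩ : x ≠ 21 ∧
        ((x = gn (j + 1) ∨ x = 21 ∨ x = 21 ∨ x = 21) ∨ (((x = gn j ∨ x = 21 ∨ x = 21 ∨ x = 21) ∨
          ((x = bn j ∨ x = 21 ∨ x = 21 ∨ x = 21) ∨ False)) ∨ False)) := hfree
      all_goals try simp only [gn, bn] at h
      all_goals omega

/-! ### the bounds at `v` -/

section bounds

variable {G Δ : List Fml} {s l n k r : ℕ}

/-- `v` lies beyond `g_j` and `b_j` -/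
theorem andStep (hkr : k + r ≤ n) (hs : 1000 * (n + 1) ^ 2 ≤ s) (hl : Δ.length + 3 ≤ l)
    (hΔ : ∀ g ∈ Δ, W 9 s g) (hG : ∀ g ∈ G3 k r r, g ∈ Δ) {j N : ℕ} (hj : j < r)
    (h : ND WB 9 s l G N Δ (hi (gn (j + 1)) 17)) :
    ND WB 9 s l G (N + 3) Δ (.and (hi (gn j) 17) (hi (bn j) 17)) := by
  have hsq : n + 1 ≤ (n + 1) ^ 2 := by nlinarith
  have h0 : ND WB 9 s l G 1 Δ (MJ j) := by
    refine .hyp (by omega) hΔ (hG _ (mem_G3.2 (.inr (.inr ⟨j, hj, .inr rfl⟩))))
  have e : (Fm.imp (hi (gn (j + 1)) 21) (.and (hi (gn j) 21) (hi (bn j) 21))).subst 21 17 =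
      Fm.imp (hi (gn (j + 1)) 17) (.and (hi (gn j) 17) (hi (bn j) 17)) := by
    have h1 : Pool.Agent.TH672.Form.ren 21 17 (gn (j + 1)) = gn (j + 1) := by
      unfold Pool.Agent.TH672.Form.ren
      rw [if_neg]
      simp only [gn]
      omega
    have h2 : Pool.Agent.TH672.Form.ren 21 17 (gn j) = gn j := by
      unfold Pool.Agent.TH672.Form.ren
      rw [if_neg]
      simp only [gn]
      omega
    have h3 : Pool.Agent.TH672.Form.ren 21 17 (bn j) = bn j := by
      unfold Pool.Agent.TH672.Form.ren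
      rw [if_neg]
      simp only [bn]
      omega
    simp only [Fm.subst, hi, Fm.neg, Fm.and, h1, h2, h3]
    rfl
  have h1 := ND.allE 17 (x := 21) h0 ⟨trivial, ⟨trivial, trivial, trivial⟩, trivial⟩ (by
    rw [e]
    refine ⟨((bb_hi 0 _ _).imp (bb_and (bb_hi 0 _ _) (bb_hi 0 _ _))).mono (by omega), ?_⟩
    rw [sz_imp, sz_and, sz_hi, sz_hi, sz_hi]
    simp only [gn, bn]
    omega)
  rw [e] at h1
  exact (h1.mp h).up (by omega)

theorem chainG (hkr : k + r ≤ n) (hs : 1000 * (n + 1) ^ 2 ≤ s) (hl : Δ.length + 3 ≤ l)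
    (hΔ : ∀ g ∈ Δ, W 9 s g) (hG : ∀ g ∈ G3 k r r, g ∈ Δ) (hgr : hi (gn r) 17 ∈ Δ) :
    ∀ i j : ℕ, i + j = r → ND WB 9 s l G (1 + 12 * i) Δ (hi (gn j) 17) := by
  intro i
  induction i with
  | zero =>
    intro j hj
    obtain rfl : j = r := by omega
    exact .hyp (by omega) hΔ hgr
  | succ i ih =>
    intro j hj
    have h1 := ih (j + 1) (by omega)
    have h2 := andStep hkr hs hl hΔ hG (by omega) h1
    exact (ND_andL h2 hl).up (by omega)

theorem chainB (hkr : k + r ≤ n) (hs : 1000 * (n + 1) ^ 2 ≤ s) (hl : Δ.length + 3 ≤ l)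
    (hΔ : ∀ g ∈ Δ, W 9 s g) (hG : ∀ g ∈ G3 k r r, g ∈ Δ) (hgr : hi (gn r) 17 ∈ Δ) {j : ℕ}
    (hj : j < r) : ND WB 9 s l G (13 * (n + 1)) Δ (hi (bn j) 17) := by
  have h1 := chainG (G := G) hkr hs hl hΔ hG hgr (r - (j + 1)) (j + 1) (by omega)
  have h2 := andStep hkr hs hl hΔ hG hj h1
  exact (ND_andR h2 hl).up (by omega)

end bounds

/-! ### the contradiction -/

/-- the body of `Hyp` -/
def body (P : List (ℕ × ℕ)) (D : List ℕ) (u v : ℕ) : Fml :=
  imps (cols P u ++ (cols P v ++ (col u v 23 :: neqs D 23))) .bot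

theorem bb_body (P : List (ℕ × ℕ)) (D : List ℕ) (u v : ℕ) : BB 0 (body P D u v) := by
  apply BB.imps _ (bb_bot 0)
  intro g hg
  rcases List.mem_append.1 hg with hg | hg
  · exact bb_cols _ _ _ g hg
  · rcases List.mem_append.1 hg with hg | hg
    · exact bb_cols _ _ _ g hg
    · rcases List.mem_cons.1 hg with rfl | hg
      · exact bb_col _ _ _ _
      · exact bb_neqs _ _ _ g hg

theorem ff_body (P : List (ℕ × ℕ)) (D : List ℕ) (u v x y : ℕ) : (body P D u v).FreeFor y x := by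
  refine freeFor_imps (fun g hg => ?_) (show (Fm.bot : Fml).FreeFor y x from trivial)
  rcases List.mem_append.1 hg with hg | hg
  · obtain ⟨x, hx, rfl⟩ := List.mem_map.1 hg
    trivial
  · rcases List.mem_append.1 hg with hg | hg
    · obtain ⟨x, hx, rfl⟩ := List.mem_map.1 hg
      trivial
    · rcases List.mem_cons.1 hg with rfl | hg
      · trivial
      · obtain ⟨x, hx, rfl⟩ := List.mem_map.1 hg
        exact ⟨trivial, trivial⟩

theorem ren_ne {x y u : ℕ} (h : u ≠ x) : Pool.Agent.TH672.Form.ren x y u = u := if_neg h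

theorem subst_cols {P : List (ℕ × ℕ)} {v x y : ℕ} (h : ∀ p ∈ P, p.1 ≠ x ∧ p.2 ≠ x) :
    (cols P v).map (fun g => g.subst x y) = cols P (Pool.Agent.TH672.Form.ren x y v) := by
  unfold cols
  rw [List.map_map]
  refine List.map_congr_left fun p hp => ?_
  show Fm.op 3 _ _ _ _ = Fm.op 3 _ _ _ _
  rw [ren_ne (h p hp).1, ren_ne (h p hp).2]

theorem subst_neqs {D : List ℕ} {e x y : ℕ} (h : ∀ d ∈ D, d ≠ x) (he : e ≠ x) :
    (neqs D e).map (fun g => g.subst x y) = neqs D e := by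
  unfold neqs
  rw [List.map_map]
  refine List.map_congr_left fun d hd => ?_
  show Fm.imp (Fm.eq _ _) _ = Fm.imp (Fm.eq _ _) _
  rw [ren_ne he, ren_ne (h d hd)]
  rfl

theorem subst_body {P : List (ℕ × ℕ)} {D : List ℕ} {u v x y : ℕ} (h : ∀ p ∈ P, p.1 ≠ x ∧ p.2 ≠ x)
    (h' : ∀ d ∈ D, d ≠ x) (hx : 23 ≠ x) : (body P D u v).subst x y =
      body P D (Pool.Agent.TH672.Form.ren x y u) (Pool.Agent.TH672.Form.ren x y v) := by
  unfold body
  rw [subst_imps, List.map_append, List.map_append, List.map_cons, subst_cols h, subst_cols h,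
    subst_neqs h' hx]
  have e : (col u v 23).subst x y = col (Pool.Agent.TH672.Form.ren x y u)
      (Pool.Agent.TH672.Form.ren x y v) 23 := by
    show Fm.op 3 _ _ _ _ = Fm.op 3 _ _ _ _
    rw [ren_ne hx]
  rw [e]
  rfl

theorem Hyp_eq (P : List (ℕ × ℕ)) (D : List ℕ) :
    Hyp P D = .all 17 (.all 19 (.all 23 (body P D 17 19))) := by
  unfold Hyp body
  simp only [imps_append, imps_cons]

theorem sz_body {P : List (ℕ × ℕ)} {D : List ℕ} {N u v : ℕ} (hN : 1 ≤ N) (hP : P.length ≤ N)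
    (hD : D.length ≤ N) (hP' : ∀ x ∈ P, x.1 ≤ 42 * N ∧ x.2 ≤ 42 * N) (hD' : ∀ x ∈ D, x ≤ 42 * N)
    (hu : u ≤ 42 * N) (hv : v ≤ 42 * N) : sz (body P D u v) ≤ 700 * N ^ 2 := by
  have h1 := cs_cols (v := u) hP' hu
  have h2 := cs_cols (v := v) hP' hv
  have h3 := cs_neqs (e := 23) hD' (by omega)
  have h4 : P.length * (4 * (42 * N) + 16) ≤ N * (4 * (42 * N) + 16) := Nat.mul_le_mul_right _ hP
  have h5 : D.length * (2 * (42 * N) + 18) ≤ N * (2 * (42 * N) + 18) := Nat.mul_le_mul_right _ hD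
  unfold body
  rw [sz_imps, cs_append, cs_append, cs_cons, sz_col, sz_bot]
  nlinarith

/-- **Module D2b2.** -/
theorem d2b2 : D2b2T := by
  refine ⟨1000, fun C hC n k r hkr G => ?_⟩
  obtain ⟨s, hs⟩ : ∃ s, s = C * (n + 1) ^ 3 := ⟨_, rfl⟩
  obtain ⟨l, hl⟩ : ∃ l, l = C * (n + 1) := ⟨_, rfl⟩
  rw [← hs, ← hl]
  have hn : 1 ≤ n + 1 := by omega
  have hsq : n + 1 ≤ (n + 1) ^ 2 := by nlinarith
  have hcu : (n + 1) ^ 2 ≤ (n + 1) ^ 3 := Nat.pow_le_pow_right hn (by norm_num)
  have hs1 : 1000 * (n + 1) ^ 2 ≤ s := by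
    rw [hs]
    exact Nat.mul_le_mul hC hcu
  have hl1 : 1000 * (n + 1) ≤ l := by
    rw [hl]
    exact Nat.mul_le_mul_right _ hC
  clear hs hl
  have hPP := PP_bd (k := k) (n := n) (by omega)
  have hDD := DD_bd (r := r) (n := n) (by omega)
  have hgr : gn r ≤ 42 * (n + 1) + 10 := by simp only [gn]; omega
  have hgr' : 40 ≤ gn r := by simp only [gn]; omega
  have hpk : pn k ≤ 42 * (n + 1) := by simp only [pn]; omega
  have hpk' : 40 ≤ pn k := by simp only [pn]; omega
  have hG3 := G3_W (n := n) (s := s) (k := k) (r := r) hkr hs1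
  -- the premises
  obtain ⟨LL, hLL⟩ : ∃ LL, LL = hi (gn r) 17 :: cols (PP k) 17 := ⟨_, rfl⟩
  have hlenLL : LL.length = k + 1 := by
    rw [hLL]
    simp only [List.length_cons, cols, List.length_map, len_PP]
  have hbLL : ∀ g ∈ LL, BB 0 g := by
    intro g hg
    rw [hLL] at hg
    rcases List.mem_cons.1 hg with rfl | hg
    · exact bb_hi _ _ _
    · exact bb_cols _ _ _ g hg
  have hWL : ∀ g ∈ LL, W 9 s g := by
    intro g hg
    refine ⟨(hbLL g hg).mono (by omega), ?_⟩
    rw [hLL] at hg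
    rcases List.mem_cons.1 hg with rfl | hg
    · rw [sz_hi]
      omega
    · obtain ⟨x, hx, rfl⟩ := List.mem_map.1 hg
      have := hPP x hx
      rw [sz_col]
      omega
  have hfL : ∀ g ∈ LL, ∀ x, x < 39 → x ≠ 17 → ¬ g.Free x := by
    intro g hg x hx h17 hfree
    rw [hLL] at hg
    rcases List.mem_cons.1 hg with rfl | hg
    · rcases hfree with h | h | h | h <;> omega
    · rcases free_cols hg hfree with ⟨p, hp, h⟩ | h
      · have := (hPP p hp).2
        omega
      · omega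
  obtain ⟨E, hE⟩ : ∃ E, E = G3 k r r ++ LL := ⟨_, rfl⟩
  have hWE : ∀ g ∈ E, W 9 s g := by
    intro g hg
    rw [hE] at hg
    rcases List.mem_append.1 hg with hg | hg
    · exact (hG3 g hg).1
    · exact hWL g hg
  have hlE : E.length = 2 * k + 5 + 2 * r := by
    rw [hE, List.length_append, hlenLL, len_G3]
    omega
  have hGE : ∀ g ∈ G3 k r r, g ∈ E := by
    intro g hg
    rw [hE]
    exact List.mem_append_left _ hg
  have hLE : ∀ g ∈ LL, g ∈ E := by
    intro g hg
    rw [hE]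
    exact List.mem_append_right _ hg
  have hfE : ∀ g ∈ E, ¬ g.Free 23 := by
    intro g hg
    rw [hE] at hg
    rcases List.mem_append.1 hg with hg | hg
    · exact (hG3 g hg).2 23 (by omega)
    · exact hfL g hg 23 (by omega) (by omega)
  have hgrL : hi (gn r) 17 ∈ LL := by
    rw [hLL]
    exact List.mem_cons_self
  have hcL : ∀ g ∈ cols (PP k) 17, g ∈ LL := by
    intro g hg
    rw [hLL]
    exact List.mem_cons_of_mem _ hg
  -- the colour `23` of `u_k` and `17`
  have wc : W 9 s (col (pn k) 17 23) := by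
    refine ⟨bb_col _ _ _ _, ?_⟩
    rw [sz_col]
    omega
  obtain ⟨E2, hE2⟩ : ∃ E2, E2 = E ++ [col (pn k) 17 23] := ⟨_, rfl⟩
  have hWE2 : ∀ g ∈ E2, W 9 s g := by
    rw [hE2]
    exact W_ctx1 hWE wc
  have hlE2 : E2.length = 2 * k + 6 + 2 * r := by
    rw [hE2, List.length_append, hlE, List.length_singleton]
    omega
  have hEE2 : ∀ g ∈ E, g ∈ E2 := by
    intro g hg
    rw [hE2]
    exact List.mem_append_left _ hg
  have hcE2 : col (pn k) 17 23 ∈ E2 := by
    rw [hE2]
    simp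
  have inner : ND WB 9 s l G (4 + (2 * (n + 1)) * (60 * (n + 1) + 1)) E2 .bot := by
    have a0 : ND WB 9 s l G 1 E2 (Hyp (PP k) (DD r)) := by
      refine .hyp (by omega) hWE2 (hEE2 _ (hGE _ (mem_G3.2 (.inl ?_))))
      unfold G2
      simp
    rw [Hyp_eq] at a0
    have hszb : ∀ u v, u ≤ 42 * (n + 1) → v ≤ 42 * (n + 1) →
        sz (body (PP k) (DD r) u v) ≤ 700 * (n + 1) ^ 2 := fun u v hu hv =>
      sz_body hn (by rw [len_PP]; omega) (by rw [len_DD]; omega) (fun x hx => (hPP x hx).1)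
        (fun x hx => (hDD x hx).1) hu hv
    have e1 : (Fm.all 19 (.all 23 (body (PP k) (DD r) 17 19))).subst 17 (pn k) =
        .all 19 (.all 23 (body (PP k) (DD r) (pn k) 19)) := by
      show (if 19 = 17 then _ else Fm.all 19 (if 23 = 17 then _ else Fm.all 23 _)) = _
      rw [if_neg (by omega), if_neg (by omega), subst_body (fun p hp => ?_) (fun d hd => ?_)
        (by omega)]
      · rfl
      · have := (hPP p hp).2
        omega
      · have := (hDD d hd).2
        omega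
    have e2 : (Fm.all 23 (body (PP k) (DD r) (pn k) 19)).subst 19 17 =
        .all 23 (body (PP k) (DD r) (pn k) 17) := by
      show (if 23 = 19 then _ else Fm.all 23 _) = _
      rw [if_neg (by omega), subst_body (fun p hp => ?_) (fun d hd => ?_) (by omega),
        ren_ne (show pn k ≠ 19 by omega)]
      · rfl
      · have := (hPP p hp).2
        omega
      · have := (hDD d hd).2
        omega
    have a1 := a0.allE (pn k) (x := 17) (.inr (.inr ⟨by omega, .inr (.inr ⟨by omega,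
      ff_body _ _ _ _ _ _⟩)⟩)) (by
      rw [e1]
      refine ⟨(((bb_body _ _ _ _).all 23).all 19).mono (by omega), ?_⟩
      have := hszb (pn k) 19 hpk (by omega)
      simp only [sz_all]
      omega)
    rw [e1] at a1
    have a2 := a1.allE 17 (x := 19) (.inr (.inr ⟨by omega, ff_body _ _ _ _ _ _⟩)) (by
      rw [e2]
      refine ⟨((bb_body _ _ _ _).all 23).mono (by omega), ?_⟩
      have := hszb (pn k) 17 hpk (by omega)
      simp only [sz_all]
      omega)
    rw [e2] at a2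
    have a3 := a2.allE 23 (x := 23) (ff_body _ _ _ _ _ _) (by
      rw [subst_self]
      refine ⟨(bb_body _ _ _ _).mono (by omega), ?_⟩
      have := hszb (pn k) 17 hpk (by omega)
      omega)
    rw [subst_self] at a3
    -- the colour `d_j` is impossible
    have hno : ∀ j < r, ND WB 9 s l G (60 * (n + 1)) E2 (Fm.neg (.eq 23 (dn j))) := by
      intro j hj
      have hdj : dn j ≤ 42 * (n + 1) := by simp only [dn]; omega
      have hdj' : 40 ≤ dn j := by simp only [dn]; omega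
      have hbj : bn j ≤ 42 * (n + 1) := by simp only [bn]; omega
      have hbj' : 40 ≤ bn j := by simp only [bn]; omega
      have hPJ := PJ_bd (n := n) hkr hj
      have we : W 9 s (Fm.eq 23 (dn j) : Fml) := by
        refine ⟨bb_eq _ _ _, ?_⟩
        rw [sz_eq]
        omega
      obtain ⟨E3, hE3⟩ : ∃ E3, E3 = E2 ++ [Fm.eq 23 (dn j)] := ⟨_, rfl⟩
      have hWE3 : ∀ g ∈ E3, W 9 s g := by
        rw [hE3]
        exact W_ctx1 hWE2 we
      have hlE3 : E3.length = 2 * k + 7 + 2 * r := by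
        rw [hE3, List.length_append, hlE2, List.length_singleton]
        omega
      have hEE3 : ∀ g ∈ E2, g ∈ E3 := by
        intro g hg
        rw [hE3]
        exact List.mem_append_left _ hg
      have heE3 : Fm.eq 23 (dn j) ∈ E3 := by
        rw [hE3]
        simp
      have hyp3 : ∀ g ∈ E3, ND WB 9 s l G 1 E3 g := fun g hg => .hyp (by omega) hWE3 hg
      have b1 : ND WB 9 s l G 1 E3
          ((Fm.eq 23 (dn j)).imp ((col (pn k) 17 23).imp (col (pn k) 17 (dn j)))) := by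
        refine .thm (by omega) hWE3 ⟨(bb_eq _ _ _).imp ((bb_col _ _ _ _).imp (bb_col _ _ _ _)), ?_⟩
          (.inr (.inr (.repl 23 (dn j) (col (pn k) 17 23) (col (pn k) 17 (dn j)) ?_)))
        · simp only [sz_imp, sz_eq, sz_col]
          omega
        · exact .op (.inl rfl) (.inl rfl) (.inr ⟨rfl, rfl⟩) (.inr ⟨rfl, rfl⟩)
      have b2 := (b1.mp (hyp3 _ heE3)).mp (hyp3 (col (pn k) 17 23) (hEE3 _ hcE2))
      have b3 := chainB (G := G) (Δ := E3) (l := l) hkr hs1 (by omega) hWE3 (fun g hg => hEE3 _ (hEE2 _ (hGE _ hg)))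
        (hEE3 _ (hEE2 _ (hLE _ hgrL))) hj
      have b4 : ND WB 9 s l G 1 E3 (EJ k j) :=
        hyp3 _ (hEE3 _ (hEE2 _ (hGE _ (mem_G3.2 (.inr (.inr ⟨j, hj, .inl rfl⟩))))))
      have hszE : sz (EJ k j) ≤ 1000 * (n + 1) ^ 2 :=
        ((G3_W (s := 1000 * (n + 1) ^ 2) hkr le_rfl) _ (mem_G3.2 (.inr (.inr
          ⟨j, hj, .inl rfl⟩)))).1.le
      have b5 := ND.allE 17 (x := 17) b4 ⟨trivial, freeFor_imps (fun g hg => by
          obtain ⟨x, hx, rfl⟩ := List.mem_map.1 hg
          trivial) (show (Fm.bot : Fml).FreeFor 17 17 from trivial)⟩ (by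
        rw [subst_self]
        refine ⟨((bb_hi 0 _ _).imp (BB.imps (bb_cols 0 _ _) (bb_bot 0))).mono (by omega), ?_⟩
        unfold EJ at hszE
        rw [sz_all] at hszE
        omega)
      rw [subst_self] at b5
      have b6 := b5.mp b3
      have b7 := ND_mps (M := 5) b6 (by
        intro g hg
        obtain ⟨x, hx, rfl⟩ := List.mem_map.1 hg
        rcases List.mem_append.1 hx with hx | hx
        · refine (hyp3 _ (hEE3 _ (hEE2 _ (hLE _ (hcL _ ?_))))).up (by omega)
          exact List.mem_map.2 ⟨x, hx, rfl⟩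
        · rw [List.mem_singleton] at hx
          rw [hx]
          exact b2.up (by omega))
      have hlenPJ : (cols (PJ k j) 17).length = k + 1 := by
        rw [cols, List.length_map, len_PJ]
      rw [hlenPJ] at b7
      rw [hE3] at b7
      have b8 := b7.impI (by
        refine ⟨bb_neg (bb_eq _ _ _), ?_⟩
        rw [sz_imp, sz_eq, sz_bot]
        omega)
      exact b8.up (by omega)
    have a4 := ND_mps (M := 60 * (n + 1)) a3 (by
      intro g hg
      rcases List.mem_append.1 hg with hg | hg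
      · refine (ND.hyp (by omega) hWE2 (hEE2 _ (hGE _ (mem_G3.2 (.inl ?_))))).up (by omega)
        unfold G2
        exact List.mem_append_right _ hg
      · rcases List.mem_append.1 hg with hg | hg
        · exact (ND.hyp (by omega) hWE2 (hEE2 _ (hLE _ (hcL _ hg)))).up (by omega)
        · rcases List.mem_cons.1 hg with rfl | hg
          · exact (ND.hyp (by omega) hWE2 hcE2).up (by omega)
          · obtain ⟨d, hd, rfl⟩ := List.mem_map.1 hg
            obtain ⟨i, hi, rfl⟩ := List.mem_map.1 hd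
            rw [List.mem_range] at hi
            exact hno i hi)
    have hlenP : (cols (PP k) (pn k) ++ (cols (PP k) 17 ++ (col (pn k) 17 23 ::
        neqs (DD r) 23))).length = k + (k + (r + 1)) := by
      simp only [List.length_append, List.length_cons, cols, neqs, List.length_map, len_PP, len_DD]
    rw [hlenP] at a4
    refine a4.up ?_
    have : (k + (k + (r + 1))) * (60 * (n + 1) + 1) ≤ (2 * (n + 1)) * (60 * (n + 1) + 1) :=
      Nat.mul_le_mul_right _ (by omega)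
    omega
  -- there is no colour
  rw [hE2] at inner
  have c1 := inner.impI (by
    refine ⟨bb_neg (bb_col _ _ _ _), ?_⟩
    rw [sz_imp, sz_col, sz_bot]
    omega)
  have c2 := c1.allI (x := 23) hfE (by
    refine ⟨((bb_neg (bb_col 0 (pn k) 17 23)).all 23).mono (by omega), ?_⟩
    rw [sz_all, sz_imp, sz_col, sz_bot]
    omega)
  have m0 : ND WB 9 s l G 1 E (MC k) :=
    .hyp (by omega) hWE (hGE _ (mem_G3.2 (.inr (.inl rfl))))
  have e3 : (Fm.imp (hi (gn 0) 21) (.ex 23 (col (pn k) 21 23))).subst 21 17 =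
      Fm.imp (hi (gn 0) 17) (.ex 23 (col (pn k) 17 23)) := by
    have h1 : Pool.Agent.TH672.Form.ren 21 17 (pn k) = pn k := ren_ne (by omega)
    have h2 : Pool.Agent.TH672.Form.ren 21 17 (gn 0) = gn 0 := ren_ne (by simp only [gn]; omega)
    simp only [Fm.subst, hi, col, Fm.neg, Fm.ex, h1, h2]
    rfl
  have m1 := ND.allE 17 (x := 21) m0
    ⟨trivial, .inr (.inr ⟨by omega, trivial, trivial⟩), trivial⟩ (by
    rw [e3]
    refine ⟨((bb_hi 2 _ _).imp (bb_ex (bb_col 0 _ _ _) 23)).mono (by omega), ?_⟩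
    rw [sz_imp, sz_ex, sz_hi, sz_col]
    simp only [gn]
    omega)
  rw [e3] at m1
  have m2 := m1.mp (chainG (G := G) hkr hs1 (by omega) hWE hGE (hLE _ hgrL) r 0 (by omega))
  have m3 := m2.mp c2
  -- the set is bounded
  rw [hE] at m3
  have hszL : sz (imps LL .bot) ≤ 400 * (n + 1) ^ 2 := by
    have h1 := cs_cols (v := 17) (fun x hx => (hPP x hx).1) (by omega)
    rw [len_PP] at h1
    have h2 : k * (4 * (42 * (n + 1)) + 16) ≤ (n + 1) * (4 * (42 * (n + 1)) + 16) :=
      Nat.mul_le_mul_right _ (by omega)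
    rw [hLL, sz_imps, cs_cons, sz_hi, sz_bot]
    nlinarith
  have hbL : BB 0 (imps LL .bot) := BB.imps hbLL (bb_bot 0)
  have d1 := ND_impIs m3 ⟨hbL.mono (by omega), by omega⟩
  have d2 := d1.allI (x := 17) (fun g hg => (hG3 g hg).2 17 (by omega))
    ⟨(hbL.all 17).mono (by omega), by rw [sz_all]; omega⟩
  have k0 : ND WB 9 s l G 1 (G3 k r r) (Kf (PP k)) := by
    refine .hyp (by rw [len_G3]; omega) (fun g hg => (hG3 g hg).1) (mem_G3.2 (.inl ?_))
    unfold G2
    simp
  have e4 : (Fm.neg (.all 17 (.imp (hi 15 17) (imps (cols (PP k) 17) .bot)))).subst 15 (gn r) =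
      Fm.neg (.all 17 (imps LL .bot)) := by
    rw [hLL, imps_cons]
    show Fm.imp (if 17 = 15 then _ else Fm.all 17 (Fm.imp _ ((imps (cols (PP k) 17) .bot).subst
      15 (gn r)))) _ = _
    rw [if_neg (by omega), subst_imps, subst_cols (fun p hp => ?_)]
    · rfl
    · have := (hPP p hp).2
      omega
  have k1 := ND.allE (gn r) (x := 15) k0 ⟨.inr (.inr ⟨by omega, trivial, freeFor_imps (fun g hg => by
      obtain ⟨x, hx, rfl⟩ := List.mem_map.1 hg
      trivial) (show (Fm.bot : Fml).FreeFor (gn r) 15 from trivial)⟩), trivial⟩ (by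
    rw [e4]
    refine ⟨(bb_neg (hbL.all 17)).mono (by omega), ?_⟩
    rw [sz_neg, sz_all]
    omega)
  rw [e4] at k1
  refine (k1.mp d2).up ?_
  rw [hlenLL]
  have : (2 * (n + 1)) * (60 * (n + 1) + 1) = 120 * (n + 1) ^ 2 + 2 * (n + 1) := by ring
  omega

end Pool.Agent.J6H92.BC
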